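import Pool.Agent.Lib.MP_678664_lc_CP.ModD

/-!
# Gadgets for all pairs of `R` parties
-/

open Finset

namespace CliqueRP

open CliqueCP

/-- One gadget for every ordered pair of parties (used for `a < b`) and every variable. -/
abbrev Gad (R q n : ℕ) := Fin R → Fin R → Fin q → Fin n → Fin n → Bool

/-- The gadget property: among `M` points for every party, pairwise different at every coordinate
of `C`, some tuple shows any given patterns on `C`. -/
def GGood {R q n : ℕ} (g : Gad R q n) (M : ℕ) : Prop :=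
  ∀ (C : Finset (Fin q)) (x : Fin R → Fin M → Pt q n) (ρ : Fin R → Fin R → Fin q → Bool),
    (∀ a, ∀ i ∈ C, Function.Injective fun s => x a s i) →
    ∃ α : Fin R → Fin M, ∀ a b, a < b → ∀ i ∈ C, g a b i (x a (α a) i) (x b (α b) i) = ρ a b i

/-- The values shown by the pair `a, b`. -/
def gv {R q n : ℕ} (g : Gad R q n) (a b : Fin R) (x : Fin R → Pt q n) : Fin q → Bool :=
  fun i => g a b i (x a i) (x b i)

/-- The number of points that is enough. -/
def gM (R q p : ℕ) : ℕ := R * (2 ^ (R ^ 2 * q) * (4 * p * q * R ^ 2 + R ^ 2 * q + q + 1))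

open ModD in
theorem exists_gad (R q p : ℕ) : ∃ g : Gad R q (2 ^ (4 * p)), GGood g (gM R q p) := by
  classical
  by_contra hcon
  push Not at hcon
  set n := 2 ^ (4 * p) with hn
  set L := 4 * p * q * R ^ 2 + R ^ 2 * q + q + 1 with hL
  set M₁ := 2 ^ (R ^ 2 * q) * L with hM₁
  have hgM : gM R q p = R * M₁ := rfl
  rw [hgM] at hcon
  have hMpos : 0 < M₁ := Nat.mul_pos (Nat.two_pow_pos _) (by omega)
  let I := Fin R × Fin R × Fin q × Fin n × Fin n
  let cur : (I → Bool) → Gad R q n := fun g a b i u v => g (a, b, i, u, v)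
  let K := Finset (Fin q) × (Fin R → Fin (R * M₁) → Pt q n) × (Fin R → Fin R → Fin q → Bool)
  let ok : K → Prop := fun k => ∀ a, ∀ i ∈ k.1, Function.Injective fun s => k.2.1 a s i
  let al : Fin M₁ × Fin M₁ → Fin R → Fin (R * M₁) := fun j a =>
    ⟨j.1.1 + a.1 * j.2.1, by
      have h1 := j.1.2
      have h2 := j.2.2
      have h3 := a.2
      calc j.1.1 + a.1 * j.2.1 < M₁ + a.1 * M₁ :=
            Nat.add_lt_add_of_lt_of_le h1 (Nat.mul_le_mul_left _ h2.le)
        _ = (a.1 + 1) * M₁ := by ring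
        _ ≤ R * M₁ := Nat.mul_le_mul_right _ h3⟩
  have hal : ∀ (j j' : Fin M₁ × Fin M₁) (a b : Fin R), a < b → al j a = al j' a →
      al j b = al j' b → j = j' := by
    intro j j' a b hab h1 h2
    have h1' : j.1.1 + a.1 * j.2.1 = j'.1.1 + a.1 * j'.2.1 := congrArg Fin.val h1
    have h2' : j.1.1 + b.1 * j.2.1 = j'.1.1 + b.1 * j'.2.1 := congrArg Fin.val h2
    have hab' : a.1 < b.1 := hab
    obtain ⟨c, hc⟩ := Nat.exists_eq_add_of_lt hab'
    have h3 : (c + 1) * j.2.1 = (c + 1) * j'.2.1 := by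
      rw [hc] at h2'
      nlinarith
    have h4 : j.2.1 = j'.2.1 := Nat.eq_of_mul_eq_mul_left (by omega) h3
    have h5 : j.1.1 = j'.1.1 := by
      rw [h4] at h1'
      omega
    exact Prod.ext (Fin.ext h5) (Fin.ext h4)
  let Bad : K → Finset (I → Bool) := fun k =>
    univ.filter fun g => ok k ∧ ∀ α : Fin R → Fin (R * M₁), ∃ a b, a < b ∧ ∃ i ∈ k.1,
      g (a, b, i, k.2.1 a (α a) i, k.2.1 b (α b) i) ≠ k.2.2 a b i
  have hcover : (univ : Finset (I → Bool)) ⊆ (univ : Finset K).biUnion Bad := by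
    intro g _
    have h := hcon (cur g)
    unfold GGood at h
    push Not at h
    obtain ⟨C, x, ρ, hx, hbad⟩ := h
    refine Finset.mem_biUnion.mpr ⟨(C, x, ρ), Finset.mem_univ _, ?_⟩
    refine Finset.mem_filter.mpr ⟨Finset.mem_univ _, hx, ?_⟩
    intro α
    obtain ⟨a, b, hab, i, hi, h⟩ := hbad α
    exact ⟨a, b, hab, i, hi, h⟩
  have hone : ∀ k : K, (Bad k).card * 2 ^ (L * M₁) ≤ 2 ^ Fintype.card I := by
    intro k
    by_cases hk : ok k
    · let C := {z : Fin R × Fin R × Fin q // z.1 < z.2.1 ∧ z.2.2 ∈ k.1}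
      let e : (Fin M₁ × Fin M₁) × C → I := fun z =>
        (z.2.1.1, z.2.1.2.1, z.2.1.2.2, k.2.1 z.2.1.1 (al z.1 z.2.1.1) z.2.1.2.2,
          k.2.1 z.2.1.2.1 (al z.1 z.2.1.2.1) z.2.1.2.2)
      have he : Function.Injective e := by
        rintro ⟨j, ⟨⟨a, b, i⟩, hab, hi⟩⟩ ⟨j', ⟨⟨a', b', i'⟩, hab', hi'⟩⟩ h
        have h0 : a = a' := congrArg (fun z : I => z.1) h
        have h1 : b = b' := congrArg (fun z : I => z.2.1) h
        have h2 : i = i' := congrArg (fun z : I => z.2.2.1) h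
        subst h0; subst h1; subst h2
        have h3 : k.2.1 a (al j a) i = k.2.1 a (al j' a) i := congrArg (fun z : I => z.2.2.2.1) h
        have h4 : k.2.1 b (al j b) i = k.2.1 b (al j' b) i := congrArg (fun z : I => z.2.2.2.2) h
        have h5 : j = j' := hal j j' a b hab (hk a i hi h3) (hk b i hi h4)
        subst h5
        rfl
      have h1 := card_bad e he (fun i => k.2.2 i.1.1 i.1.2.1 i.1.2.2) (Bad k) (by
        rintro g hg j
        obtain ⟨a, b, hab, i, hi, hne⟩ := (Finset.mem_filter.mp hg).2.2 (al j)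
        exact ⟨⟨(a, b, i), hab, hi⟩, hne⟩)
      rw [Fintype.card_prod, Fintype.card_fin] at h1
      have hc : Fintype.card C ≤ R ^ 2 * q := by
        have h2 := Fintype.card_subtype_le
          (fun z : Fin R × Fin R × Fin q => z.1 < z.2.1 ∧ z.2.2 ∈ k.1)
        rw [Fintype.card_prod, Fintype.card_prod, Fintype.card_fin, Fintype.card_fin] at h2
        calc Fintype.card C ≤ R * (R * q) := h2
          _ = R ^ 2 * q := by ring
      have h2 := pow_ineq (R ^ 2 * q) (Fintype.card C) L hc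
      rw [← hM₁] at h2
      have hpos : 0 < 2 ^ (M₁ * M₁ * Fintype.card C) := Nat.two_pow_pos _
      refine Nat.le_of_mul_le_mul_right ?_ hpos
      calc (Bad k).card * 2 ^ (L * M₁) * 2 ^ (M₁ * M₁ * Fintype.card C)
          = ((Bad k).card * 2 ^ (M₁ * M₁ * Fintype.card C)) * 2 ^ (L * M₁) := by ring
        _ ≤ ((2 ^ Fintype.card C - 1) ^ (M₁ * M₁) * 2 ^ Fintype.card I) * 2 ^ (L * M₁) :=
            Nat.mul_le_mul_right _ h1
        _ = ((2 ^ Fintype.card C - 1) ^ (M₁ * M₁) * 2 ^ (L * M₁)) * 2 ^ Fintype.card I := by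
            ring
        _ ≤ 2 ^ (M₁ * M₁ * Fintype.card C) * 2 ^ Fintype.card I := Nat.mul_le_mul_right _ h2
        _ = 2 ^ Fintype.card I * 2 ^ (M₁ * M₁ * Fintype.card C) := by ring
    · have : Bad k = ∅ := by
        apply Finset.filter_eq_empty_iff.mpr
        intro g _ hg
        exact hk hg.1
      rw [this]
      simp
  have hcardK : Fintype.card K = 2 ^ (q + R ^ 2 * q + 4 * p * q * R ^ 2 * M₁) := by
    simp only [K, Fintype.card_prod, Fintype.card_finset, Fintype.card_fun, Fintype.card_fin,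
      Fintype.card_bool, Pt, hn]
    rw [← pow_mul, ← pow_mul, ← pow_mul, ← pow_mul, ← pow_mul, ← pow_add, ← pow_add]
    congr 1
    ring
  have hsum : 2 ^ Fintype.card I * 2 ^ (L * M₁) ≤
      2 ^ (q + R ^ 2 * q + 4 * p * q * R ^ 2 * M₁) * 2 ^ Fintype.card I := by
    have h1 : Fintype.card (I → Bool) ≤ ∑ k : K, (Bad k).card := by
      calc Fintype.card (I → Bool) = (univ : Finset (I → Bool)).card := (Finset.card_univ).symm
        _ ≤ ((univ : Finset K).biUnion Bad).card := Finset.card_le_card hcover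
        _ ≤ ∑ k : K, (Bad k).card := Finset.card_biUnion_le
    rw [Fintype.card_fun, Fintype.card_bool] at h1
    calc 2 ^ Fintype.card I * 2 ^ (L * M₁) ≤ (∑ k : K, (Bad k).card) * 2 ^ (L * M₁) :=
          Nat.mul_le_mul_right _ h1
      _ = ∑ k : K, (Bad k).card * 2 ^ (L * M₁) := Finset.sum_mul _ _ _
      _ ≤ ∑ k : K, 2 ^ Fintype.card I := Finset.sum_le_sum fun k _ => hone k
      _ = 2 ^ (q + R ^ 2 * q + 4 * p * q * R ^ 2 * M₁) * 2 ^ Fintype.card I := by
          rw [Finset.sum_const, Finset.card_univ, hcardK, smul_eq_mul]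
  have h5 : 2 ^ (L * M₁) ≤ 2 ^ (q + R ^ 2 * q + 4 * p * q * R ^ 2 * M₁) := by
    refine Nat.le_of_mul_le_mul_left ?_ (Nat.two_pow_pos (Fintype.card I))
    rw [mul_comm (2 ^ Fintype.card I) (2 ^ (q + R ^ 2 * q + 4 * p * q * R ^ 2 * M₁))]
    exact hsum
  have h6 := (Nat.pow_le_pow_iff_right (by norm_num : 1 < 2)).mp h5
  have h7 : L * M₁ = 4 * p * q * R ^ 2 * M₁ + (R ^ 2 * q + q) * M₁ + M₁ := by rw [hL]; ring
  have h8 : R ^ 2 * q + q ≤ (R ^ 2 * q + q) * M₁ := Nat.le_mul_of_pos_right _ hMpos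
  omega

end CliqueRP
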