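import Pool.Agent.Lib.MP_678664_lc_CP.Round
import Pool.Agent.Lib.MP_678664_lc_RP.Gad

/-!
# One round of the evolution of `R` parties
-/

open Finset

namespace CliqueRP

open CliqueCP

/-- The sign of a sum of numbers, one for every party, is constant on halves. -/
theorem exists_halves {R : ℕ} {ι : Type*} (P : Fin R → Finset ι) (hP : ∀ a, (P a).Nonempty)
    (v : Fin R → ι → ℝ) :
    ∃ P' : Fin R → Finset ι, (∀ a, P' a ⊆ P a) ∧ (∀ a, (P a).card ≤ 2 * (P' a).card) ∧
      ((∀ x : Fin R → ι, (∀ a, x a ∈ P' a) → ∑ a, v a (x a) < 0) ∨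
       (∀ x : Fin R → ι, (∀ a, x a ∈ P' a) → 0 ≤ ∑ a, v a (x a))) := by
  classical
  choose m hm1 hm2 using fun a => exists_quantile (P a) (hP a) (v a) 2 (by norm_num)
  by_cases h : ∑ a, m a < 0
  · refine ⟨fun a => (P a).filter fun x => v a x ≤ m a, fun a => filter_subset _ _,
      fun a => hm1 a, Or.inl ?_⟩
    intro x hx
    exact lt_of_le_of_lt (sum_le_sum fun a _ => (mem_filter.mp (hx a)).2) h
  · push Not at h
    refine ⟨fun a => (P a).filter fun x => ¬ v a x < m a, fun a => filter_subset _ _, ?_,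
      Or.inr ?_⟩
    · intro a
      have e1 : ((P a).filter fun x => v a x < m a).card +
          ((P a).filter fun x => ¬ v a x < m a).card = (P a).card :=
        card_filter_add_card_filter_not _
      have := hm2 a
      change (P a).card ≤ 2 * ((P a).filter fun x => ¬ v a x < m a).card
      omega
    · intro x hx
      exact h.trans (sum_le_sum fun a _ => not_lt.mp (mem_filter.mp (hx a)).2)

/-- A configuration of the parties at a node. -/
structure Cfg {R q n : ℕ} (N : ℕ) (f : Fin R → Pt q n → ℝ) (X : Fin R → Finset (Pt q n))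
    (l : Fin R → List (Step q)) (K : Finset (Fin q)) (A : Fin R → Finset (Pt q n)) : Prop where
  ne : ∀ a, (A a).Nonempty
  ev : ∀ a, ∀ x ∈ A a, ∃ S c, ev N (f a) (l a) ∅ (X a) x = some (S, c)
  ks : ∀ a, kset ∅ (l a) = K
  kc : ∀ a, K.card = pc (l a) + fc (l a)
  kp : K.card = ∑ a, pc (l a)

/-- The progress measure. -/
def prog {R q : ℕ} (l : Fin R → List (Step q)) : ℕ := ∑ a, (pc (l a) + lc (l a))

/-- A final configuration. -/
structure FinC {R q n : ℕ} (N : ℕ) (f : Fin R → Pt q n → ℝ) (X : Fin R → Finset (Pt q n))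
    (l : Fin R → List (Step q)) (K : Finset (Fin q)) (A : Fin R → Finset (Pt q n)) : Prop where
  cfg : Cfg N f X l K A
  d : ∀ a, ∀ x ∈ A a, Dense (N ^ 2) K (evS N (f a) (l a) (X a) x)
  lt : ∀ x : Fin R → Pt q n, (∀ a, x a ∈ A a) →
    ∑ a, quant N (evS N (f a) (l a) (X a) (x a)) (f a) < 0

theorem round {R q n : ℕ} {N : ℕ} (hN : 1 ≤ N) {f : Fin R → Pt q n → ℝ}
    {X : Fin R → Finset (Pt q n)} {l : Fin R → List (Step q)} {K : Finset (Fin q)}
    {A : Fin R → Finset (Pt q n)} (hc : Cfg N f X l K A) (hAX : ∀ a, A a ⊆ X a)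
    (hT : ∀ x : Fin R → Pt q n, (∀ a, x a ∈ A a) → ∑ a, f a (x a) < 0) :
    (∃ l' A', (∀ a, A' a ⊆ A a) ∧ FinC N f X l' K A' ∧ prog l' = prog l ∧
      (∀ a, (l' a).length ≤ (l a).length + 1) ∧
      ∀ a, (A a).card ≤ (4 * (q + 1)) * (A' a).card) ∨
    (∃ l' K' A', (∀ a, A' a ⊆ A a) ∧ Cfg N f X l' K' A' ∧ prog l' = prog l + 1 ∧
      (∀ a, (l' a).length ≤ (l a).length + 2) ∧
      ∀ a, (A a).card ≤ (4 * (q + 1)) * (A' a).card) := by
  classical
  choose o A' hA'A hA'ne hA'c ho using
    fun a => popular_peel N (f a) (l a) (X a) (A a) (hc.ne a)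
  by_cases hall : ∀ a, o a = none
  · -- nobody peels
    set l1 : Fin R → List (Step q) := fun a => l a ++ [Step.peel none] with hl1
    have hev : ∀ a, ∀ x ∈ A' a, ∃ S c, ev N (f a) (l1 a) ∅ (X a) x = some (S, c) := by
      intro a x hx
      obtain ⟨c, h1⟩ := ev_peel (hc.ev a x (hA'A a hx)) ((ho a x hx).trans (hall a))
      exact ⟨_, c, h1⟩
    have hk : ∀ a, kset ∅ (l1 a) = K := by
      intro a; rw [hl1]; simp only; rw [kset_single]; exact hc.ks a
    have hp : ∀ a, pc (l1 a) = pc (l a) := by
      intro a; rw [hl1]; simp only; rw [pc_single]; rfl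
    have hf : ∀ a, fc (l1 a) = fc (l a) := by
      intro a; rw [hl1]; simp only; rw [fc_single]; rfl
    have hlc : ∀ a, lc (l1 a) = lc (l a) := by
      intro a; rw [hl1]; simp only; rw [lc_single]; rfl
    have hlen : ∀ a, (l1 a).length = (l a).length + 1 := by
      intro a; rw [hl1]; simp
    have hd : ∀ a, ∀ x ∈ A' a, Dense (N ^ 2) K (evS N (f a) (l1 a) (X a) x) := by
      intro a x hx
      obtain ⟨c, h1⟩ := ev_peel (hc.ev a x (hA'A a hx)) ((ho a x hx).trans (hall a))
      have h2 := (peelF_none (mem_evS hN (hAX a (hA'A a hx)) (hc.ev a x (hA'A a hx)))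
        ((ho a x hx).trans (hall a))).1
      have h3 : evS N (f a) (l1 a) (X a) x =
          (peelF (N ^ 2) (kset ∅ (l a)) (evS N (f a) (l a) (X a) x) x).S := evS_eq h1
      rw [h3, ← hc.ks a]
      exact h2
    have hcfg : ∀ A2 : Fin R → Finset (Pt q n), (∀ a, A2 a ⊆ A' a) → (∀ a, (A2 a).Nonempty) →
        Cfg N f X l1 K A2 := by
      intro A2 h2 h3
      refine ⟨h3, fun a x hx => hev a x (h2 a hx), hk, fun a => ?_, ?_⟩
      · rw [hp, hf]; exact hc.kc a
      · rw [hc.kp]; exact sum_congr rfl fun a _ => (hp a).symm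
    obtain ⟨A2, hA2, hA2c, hor⟩ := exists_halves A' hA'ne
      (fun a x => quant N (evS N (f a) (l1 a) (X a) x) (f a))
    have hA2ne : ∀ a, (A2 a).Nonempty := by
      intro a
      rw [← card_pos]
      have h1 := hA2c a
      have h2 := (hA'ne a).card_pos
      omega
    have hcard : ∀ a, (A a).card ≤ (4 * (q + 1)) * (A2 a).card := by
      intro a
      calc (A a).card ≤ (q + 1) * (A' a).card := hA'c a
        _ ≤ (q + 1) * (2 * (A2 a).card) := Nat.mul_le_mul_left _ (hA2c a)
        _ ≤ _ := by nlinarith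
    rcases hor with hneg | hpos
    · left
      refine ⟨l1, A2, fun a => (hA2 a).trans (hA'A a), ⟨hcfg A2 hA2 hA2ne,
        fun a x hx => hd a x (hA2 a hx), hneg⟩, ?_, fun a => (hlen a).le, hcard⟩
      unfold prog
      exact sum_congr rfl fun a _ => by rw [hp, hlc]
    · right
      have hlow : ∃ a₁, ∀ x ∈ A2 a₁, x ∈ lowS N (f a₁) (evS N (f a₁) (l1 a₁) (X a₁) x) := by
        by_contra hno
        push Not at hno
        choose y hy hyl using hno
        have h1 := hpos y hy
        have h2 := hT y (fun a => hA'A a (hA2 a (hy a)))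
        have h3 : ∑ a, quant N (evS N (f a) (l1 a) (X a) (y a)) (f a) ≤ ∑ a, f a (y a) := by
          apply sum_le_sum
          intro a _
          by_contra h4
          push Not at h4
          exact hyl a (mem_filter.mpr ⟨mem_evS hN (hAX a (hA'A a (hA2 a (hy a))))
            (hev a (y a) (hA2 a (hy a))), h4⟩)
        linarith
      obtain ⟨a₁, ha₁⟩ := hlow
      set l2 : Fin R → List (Step q) := fun a => if a = a₁ then l1 a ++ [.low] else l1 a with hl2
      have hk2 : ∀ a, kset ∅ (l2 a) = K := by
        intro a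
        simp only [hl2]
        split_ifs
        · rw [kset_single]; exact hk a
        · exact hk a
      have hp2 : ∀ a, pc (l2 a) = pc (l a) := by
        intro a
        simp only [hl2]
        split_ifs
        · rw [pc_single, hp]; rfl
        · exact hp a
      have hf2 : ∀ a, fc (l2 a) = fc (l a) := by
        intro a
        simp only [hl2]
        split_ifs
        · rw [fc_single, hf]; rfl
        · exact hf a
      have hlc2 : ∀ a, lc (l2 a) = lc (l a) + if a = a₁ then 1 else 0 := by
        intro a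
        simp only [hl2]
        split_ifs
        · rw [lc_single, hlc]; rfl
        · rw [hlc]; rfl
      refine ⟨l2, K, A2, fun a => (hA2 a).trans (hA'A a), ⟨hA2ne, ?_, hk2, ?_, ?_⟩, ?_, ?_,
        hcard⟩
      · intro a x hx
        simp only [hl2]
        split_ifs with h
        · subst h
          exact ev_low (hev a x (hA2 a hx)) (ha₁ x hx)
        · exact hev a x (hA2 a hx)
      · intro a; rw [hp2, hf2]; exact hc.kc a
      · rw [hc.kp]; exact sum_congr rfl fun a _ => (hp2 a).symm
      · unfold prog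
        have h1 : ∀ a ∈ (univ : Finset (Fin R)), pc (l2 a) + lc (l2 a) =
            (pc (l a) + lc (l a)) + if a = a₁ then 1 else 0 := by
          intro a _; rw [hp2, hlc2]; ring
        rw [sum_congr rfl h1, sum_add_distrib]
        simp
      · intro a
        simp only [hl2]
        split_ifs
        · simp [hl1]
        · simp [hl1]
  · -- somebody peels
    right
    push Not at hall
    obtain ⟨a₀, ha₀⟩ := hall
    obtain ⟨i, hi⟩ := Option.ne_none_iff_exists'.mp ha₀
    set l2 : Fin R → List (Step q) :=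
      fun a => if a = a₀ then l a ++ [.peel (some i)] else l a ++ [.fix i] with hl2
    set A2 : Fin R → Finset (Pt q n) := fun a => if a = a₀ then A' a else A a with hA2
    obtain ⟨x₀, hx₀⟩ := hA'ne a₀
    have hiK : i ∉ K := by
      rw [← hc.ks a₀]
      exact (peelF_some (mem_evS hN (hAX a₀ (hA'A a₀ hx₀)) (hc.ev a₀ x₀ (hA'A a₀ hx₀)))
        ((ho a₀ x₀ hx₀).trans hi)).1
    have hp2 : ∀ a, pc (l2 a) = pc (l a) + if a = a₀ then 1 else 0 := by
      intro a
      simp only [hl2]
      split_ifs
      · rw [pc_single]; rfl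
      · rw [pc_single]; rfl
    have hf2 : ∀ a, fc (l2 a) = fc (l a) + if a = a₀ then 0 else 1 := by
      intro a
      simp only [hl2]
      split_ifs
      · rw [fc_single]; rfl
      · rw [fc_single]; rfl
    have hlc2 : ∀ a, lc (l2 a) = lc (l a) := by
      intro a
      simp only [hl2]
      split_ifs
      · rw [lc_single]; rfl
      · rw [lc_single]; rfl
    have hcardK : (insert i K).card = K.card + 1 := card_insert_of_notMem hiK
    refine ⟨l2, insert i K, A2, ?_, ⟨?_, ?_, ?_, ?_, ?_⟩, ?_, ?_, ?_⟩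
    · intro a
      simp only [hA2]
      split_ifs
      · exact hA'A a
      · exact Subset.refl _
    · intro a
      simp only [hA2]
      split_ifs
      · exact hA'ne a
      · exact hc.ne a
    · intro a x hx
      simp only [hA2] at hx
      simp only [hl2]
      split_ifs with h
      · rw [if_pos h] at hx
        subst h
        obtain ⟨c, h1⟩ := ev_peel (hc.ev a x (hA'A a hx)) ((ho a x hx).trans hi)
        exact ⟨_, c, h1⟩
      · rw [if_neg h] at hx
        exact ev_fix (hc.ev a x hx) i
    · intro a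
      simp only [hl2]
      split_ifs
      · rw [kset_single, hc.ks]; rfl
      · rw [kset_single, hc.ks]; rfl
    · intro a
      rw [hcardK, hp2, hf2, hc.kc a]
      split_ifs <;> omega
    · rw [hcardK, hc.kp, sum_congr rfl fun a _ => hp2 a, sum_add_distrib]
      simp
    · unfold prog
      have h1 : ∀ a ∈ (univ : Finset (Fin R)), pc (l2 a) + lc (l2 a) =
          (pc (l a) + lc (l a)) + if a = a₀ then 1 else 0 := by
        intro a _; rw [hp2, hlc2]; ring
      rw [sum_congr rfl h1, sum_add_distrib]
      simp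
    · intro a
      simp only [hl2]
      split_ifs <;> simp
    · intro a
      simp only [hA2]
      split_ifs
      · have h1 := hA'c a
        nlinarith
      · nlinarith

end CliqueRP
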