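import Pool.Agent.Lib.MP_678664_lc_CP.Walk
import Pool.Agent.Lib.MP_678664_lc_RP.RoundR

/-!
# Reaching a final configuration, and the descent through the dag, for `R` parties
-/

open Finset

namespace CliqueRP

open CliqueCP

/-- Iterating rounds. -/
theorem iterate {R q n : ℕ} {N : ℕ} (hN : 1 ≤ N) {f : Fin R → Pt q n → ℝ}
    {X : Fin R → Finset (Pt q n)} {A : Fin R → Finset (Pt q n)} (hA : ∀ a, (A a).Nonempty)
    (hAX : ∀ a, A a ⊆ X a)
    (hT : ∀ x : Fin R → Pt q n, (∀ a, x a ∈ A a) → ∑ a, f a (x a) < 0) (r : ℕ) :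
    (∃ l K A', (∀ a, A' a ⊆ A a) ∧ FinC N f X l K A' ∧ (∀ a, (l a).length ≤ 2 * r + 1) ∧
      ∀ a, (A a).card ≤ (4 * (q + 1)) ^ (r + 1) * (A' a).card) ∨
    (∃ l K A', (∀ a, A' a ⊆ A a) ∧ Cfg N f X l K A' ∧ prog l = r ∧
      (∀ a, (l a).length ≤ 2 * r) ∧
      ∀ a, (A a).card ≤ (4 * (q + 1)) ^ r * (A' a).card) := by
  induction r with
  | zero =>
    right
    refine ⟨fun _ => [], ∅, A, fun a => Subset.refl _, ⟨hA, ?_, ?_, ?_, ?_⟩, ?_, ?_, ?_⟩
    · intro a x _; exact ⟨X a, 1, rfl⟩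
    · intro a; rfl
    · intro a; simp [pc, fc]
    · simp [pc]
    · simp [prog, pc, lc]
    · simp
    · simp
  | succ r ih =>
    have hC : 1 ≤ 4 * (q + 1) := by omega
    rcases ih with ⟨l, K, A', hA', hF, h1, h3⟩ | ⟨l, K, A', hA', hc, hr, h1, h3⟩
    · left
      refine ⟨l, K, A', hA', hF, fun a => (h1 a).trans (by omega), fun a => ?_⟩
      refine (h3 a).trans (Nat.mul_le_mul_right _ ?_)
      exact Nat.pow_le_pow_right hC (by omega)
    · have hmul : ∀ {a b c : ℕ}, a ≤ (4 * (q + 1)) ^ r * b → b ≤ (4 * (q + 1)) * c →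
          a ≤ (4 * (q + 1)) ^ (r + 1) * c := by
        intro a b c hab hbc
        calc a ≤ (4 * (q + 1)) ^ r * b := hab
          _ ≤ (4 * (q + 1)) ^ r * ((4 * (q + 1)) * c) := Nat.mul_le_mul_left _ hbc
          _ = _ := by rw [pow_succ]; ring
      rcases round hN hc (fun a => (hA' a).trans (hAX a))
        (fun x hx => hT x (fun a => hA' a (hx a))) with
        ⟨l', A2, hA2, hF, hp, g1, g3⟩ | ⟨l', K', A2, hA2, hc', hp, g1, g3⟩
      · left
        refine ⟨l', K, A2, fun a => (hA2 a).trans (hA' a), hF, fun a => ?_, fun a => ?_⟩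
        · have := g1 a; have := h1 a; omega
        · refine (hmul (h3 a) (g3 a)).trans (Nat.mul_le_mul_right _ ?_)
          exact Nat.pow_le_pow_right hC (by omega)
      · right
        refine ⟨l', K', A2, fun a => (hA2 a).trans (hA' a), hc', by omega, fun a => ?_,
          fun a => hmul (h3 a) (g3 a)⟩
        have := g1 a; have := h1 a; omega

/-- Non-error rows reach a final configuration with few fixed coordinates. -/
theorem reach {R q n N lam L : ℕ} (hN : 2 ≤ N) (hn : n = N ^ 4) (hL : 6 * R * lam + 3 ≤ L)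
    {f : Fin R → Pt q n → ℝ} {X : Fin R → Finset (Pt q n)}
    (hX : ∀ a, n ^ q ≤ 2 * (X a).card) {A : Fin R → Finset (Pt q n)}
    (hA : ∀ a, (A a).Nonempty) (hAX : ∀ a, A a ⊆ X a)
    (hAe : ∀ a, ∀ x ∈ A a, x ∉ errSet N L ((N : ℝ) ^ lam) (f a) (X a))
    (hT : ∀ x : Fin R → Pt q n, (∀ a, x a ∈ A a) → ∑ a, f a (x a) < 0) :
    ∃ l K A', (∀ a, A' a ⊆ A a) ∧ FinC N f X l K A' ∧ K.card ≤ R * lam ∧
      ∀ a, (A a).card ≤ (4 * (q + 1)) ^ (3 * R * lam + 2) * (A' a).card := by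
  have hbound : ∀ l K (A' : Fin R → Finset (Pt q n)), (∀ a, A' a ⊆ A a) →
      Cfg N f X l K A' → (∀ a, (l a).length ≤ L) → ∀ a, pc (l a) ≤ lam ∧ lc (l a) ≤ 2 * lam := by
    intro l K A' hA' hc hl a
    obtain ⟨x, hx⟩ := hc.ne a
    obtain ⟨S, c, hS⟩ := hc.ev a x hx
    have h1 := row_bound hN hn (hX a) (hAX a (hA' a hx)) (hAe a x (hA' a hx)) (hl a) hS
      (by rw [hc.ks a]; exact hc.kc a)
    exact ⟨h1.1, h1.2.le⟩
  have hprog : ∀ l K (A' : Fin R → Finset (Pt q n)), (∀ a, A' a ⊆ A a) →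
      Cfg N f X l K A' → (∀ a, (l a).length ≤ L) → prog l ≤ 3 * R * lam := by
    intro l K A' hA' hc hl
    have hb := hbound l K A' hA' hc hl
    unfold prog
    calc ∑ a, (pc (l a) + lc (l a)) ≤ ∑ _a : Fin R, 3 * lam := by
          apply sum_le_sum
          intro a _
          have := hb a
          omega
      _ = 3 * R * lam := by
          rw [sum_const, card_univ, Fintype.card_fin, smul_eq_mul]; ring
  rcases iterate (N := N) (by omega) hA hAX hT (3 * R * lam + 1) with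
    ⟨l, K, A', hA', hF, h1, h3⟩ | ⟨l, K, A', hA', hc, hr, h1, h3⟩
  · have hl : ∀ a, (l a).length ≤ L := by
      intro a
      have h := h1 a
      have e : 2 * (3 * R * lam + 1) + 1 = 6 * R * lam + 3 := by ring
      omega
    refine ⟨l, K, A', hA', hF, ?_, h3⟩
    rw [hF.cfg.kp]
    calc ∑ a, pc (l a) ≤ ∑ _a : Fin R, lam :=
          sum_le_sum fun a _ => (hbound l K A' hA' hF.cfg hl a).1
      _ = R * lam := by rw [sum_const, card_univ, Fintype.card_fin, smul_eq_mul]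
  · exfalso
    have hl : ∀ a, (l a).length ≤ L := by
      intro a
      have h := h1 a
      have e : 2 * (3 * R * lam + 1) = 6 * R * lam + 2 := by ring
      omega
    have := hprog l K A' hA' hc hl
    omega

/-- In sets without popular coordinates outside `K` there are points with any prescribed gadget
values outside `K`. -/
theorem exists_tuple {R q n M : ℕ} {g : Gad R q n} (hg : GGood g M)
    (K : Finset (Fin q)) (A : Fin R → Finset (Pt q n))
    (hA : ∀ a i, i ∉ K → ∀ b, M * q * (slice (A a) i b).card < (A a).card)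
    (hA0 : ∀ a, (A a).Nonempty) (ρ : Fin R → Fin R → Fin q → Bool) :
    ∃ x : Fin R → Pt q n, (∀ a, x a ∈ A a) ∧
      ∀ a b, a < b → ∀ i, i ∉ K → g a b i (x a i) (x b i) = ρ a b i := by
  classical
  choose x hx hxi using fun a => exists_family K (A a) (hA a) (hA0 a) M le_rfl
  obtain ⟨α, hα⟩ := hg Kᶜ x ρ (fun a i hi => hxi a i (mem_compl.mp hi))
  exact ⟨fun a => x a (α a), fun a => hx a (α a),
    fun a b hab i hi => hα a b hab i (mem_compl.mpr hi)⟩

/-- The invariant of the descent. -/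
def State {R q n : ℕ} (N lam : ℕ) (g : Gad R q n)
    (H : Finset (Fin q) → (Fin R → Fin R → Fin q → Bool) → Prop) (f : Fin R → Pt q n → ℝ)
    (X : Fin R → Finset (Pt q n)) : Prop :=
  ∃ (K : Finset (Fin q)) (A : Fin R → Finset (Pt q n)) (ρ : Fin R → Fin R → Fin q → Bool),
    (∀ a, (A a).Nonempty) ∧ (∀ a, A a ⊆ X a) ∧
    (∀ x : Fin R → Pt q n, (∀ a, x a ∈ A a) → ∑ a, f a (x a) < 0) ∧
    (∀ x : Fin R → Pt q n, (∀ a, x a ∈ A a) → ∀ a b, a < b → ∀ i ∈ K,
      g a b i (x a i) (x b i) = ρ a b i) ∧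
    (∀ a, Dense N K (A a)) ∧ K.card ≤ R * lam ∧ H K ρ

/-- One descent step: from a box inside the halfspace of the node `f` with good invariants to a
state of this node. -/
theorem descend {R q n N lam L M : ℕ} (hN : 2 ≤ N) (hn : n = N ^ 4)
    (hL : 6 * R * lam + 3 ≤ L)
    (hM : M * q * (2 * (4 * (q + 1)) ^ (3 * R * lam + 2)) < N)
    {g : Gad R q n} (hg : GGood g M)
    {H : Finset (Fin q) → (Fin R → Fin R → Fin q → Bool) → Prop} {w : ℕ}
    (Hmono : ∀ K K' ρ, H K ρ → K' ⊆ K → H K' ρ)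
    (Hext : ∀ K K' ρ, H K ρ → K ⊆ K' → K'.card ≤ w →
      ∃ ρ' : Fin R → Fin R → Fin q → Bool, (∀ a b, ∀ i ∈ K, ρ' a b i = ρ a b i) ∧ H K' ρ')
    (hw : 2 * R * lam ≤ w)
    {f : Fin R → Pt q n → ℝ} {X : Fin R → Finset (Pt q n)}
    (hX : ∀ a, n ^ q ≤ 2 * (X a).card) {K : Finset (Fin q)}
    {A A₁ : Fin R → Finset (Pt q n)} {ρ : Fin R → Fin R → Fin q → Bool}
    (hA : ∀ a, (A₁ a).Nonempty) (hAX : ∀ a, A₁ a ⊆ X a)
    (hAe : ∀ a, ∀ x ∈ A₁ a, x ∉ errSet N L ((N : ℝ) ^ lam) (f a) (X a))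
    (hA₁ : ∀ a, A₁ a ⊆ A a) (hA₁c : ∀ a, (A a).card ≤ 2 * (A₁ a).card)
    (hT : ∀ x : Fin R → Pt q n, (∀ a, x a ∈ A₁ a) → ∑ a, f a (x a) < 0)
    (hK : ∀ x : Fin R → Pt q n, (∀ a, x a ∈ A a) → ∀ a b, a < b → ∀ i ∈ K,
      g a b i (x a i) (x b i) = ρ a b i)
    (hdA : ∀ a, Dense N K (A a)) (hKc : K.card ≤ R * lam) (hH : H K ρ) :
    State N lam g H f X := by
  classical
  obtain ⟨l, K₁, A', hA', hF, hkc, hA'c⟩ := reach hN hn hL hX hA hAX hAe hT
  have hw' : R * lam + R * lam ≤ w := by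
    have e : 2 * R * lam = R * lam + R * lam := by ring
    omega
  obtain ⟨ρ', hρ', hH'⟩ := Hext K (K ∪ K₁) ρ hH subset_union_left
    (by have := card_union_le K K₁; omega)
  have hcA : ∀ a, (A a).card ≤ (2 * (4 * (q + 1)) ^ (3 * R * lam + 2)) * (A' a).card := by
    intro a
    calc (A a).card ≤ 2 * (A₁ a).card := hA₁c a
      _ ≤ 2 * ((4 * (q + 1)) ^ (3 * R * lam + 2) * (A' a).card) :=
          Nat.mul_le_mul_left _ (hA'c a)
      _ = _ := by ring
  obtain ⟨x, hx, hxy⟩ := exists_tuple hg K A'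
    (fun a i hi b => dense_choice (hdA a) ((hA' a).trans (hA₁ a)) (hcA a) (hF.cfg.ne a) hM i hi b)
    hF.cfg.ne ρ'
  -- the values on the new coordinates
  have hval : ∀ a b, a < b → ∀ i ∈ K₁, g a b i (x a i) (x b i) = ρ' a b i := by
    intro a b hab i _
    by_cases hiK : i ∈ K
    · rw [hρ' a b i hiK]
      exact hK x (fun a => hA₁ a (hA' a (hx a))) a b hab i hiK
    · exact hxy a b hab i hiK
  have hxX : ∀ a, x a ∈ X a := fun a => hAX a (hA' a (hx a))
  set S : Fin R → Finset (Pt q n) := fun a => evS N (f a) (l a) (X a) (x a) with hS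
  have hspec : ∀ a, x a ∈ S a ∧ S a ⊆ X a ∧ ∀ x' ∈ S a, ∀ i ∈ K₁, x' i = x a i := by
    intro a
    obtain ⟨c, hev⟩ := ev_evS (hF.cfg.ev a (x a) (hx a))
    obtain ⟨s1, s2, -, -, -, s6⟩ := ev_spec (by omega) (hxX a) hev
    refine ⟨s1, s2, fun x' hx' i hi => ?_⟩
    rcases s6 x' hx' i (by rw [hF.cfg.ks a]; exact hi) with h | h
    · simp at h
    · exact h
  have hSne : ∀ a, (S a).Nonempty := fun a => ⟨x a, (hspec a).1⟩
  have hN1 : 1 ≤ N := by omega
  have hq1 : ∀ a, (S a).card ≤ N * ((S a).filter fun y => f a y ≤ quant N (S a) (f a)).card :=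
    fun a => quant_le (hSne a) hN1 (f a)
  have hdense : ∀ (Z : Finset (Pt q n)) (k : Pt q n → ℝ), Z.card ≤ N *
      (Z.filter fun x => k x ≤ quant N Z k).card → Dense (N ^ 2) K₁ Z →
      Dense N K₁ (Z.filter fun x => k x ≤ quant N Z k) := by
    intro Z k hZ hdZ i hi b
    have h1 := hdZ i hi b
    have h2 : (slice (Z.filter fun x => k x ≤ quant N Z k) i b).card ≤ (slice Z i b).card :=
      card_le_card (slice_mono (filter_subset _ _) i b)
    have h3 : N * (N * (slice (Z.filter fun x => k x ≤ quant N Z k) i b).card) ≤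
        N * (Z.filter fun x => k x ≤ quant N Z k).card := by
      calc N * (N * (slice (Z.filter fun x => k x ≤ quant N Z k) i b).card)
          ≤ N * (N * (slice Z i b).card) := by gcongr
        _ = N ^ 2 * (slice Z i b).card := by ring
        _ ≤ Z.card := h1
        _ ≤ _ := hZ
    exact Nat.le_of_mul_le_mul_left h3 (by omega)
  refine ⟨K₁, fun a => (S a).filter fun y => f a y ≤ quant N (S a) (f a), ρ', ?_, ?_, ?_, ?_,
    ?_, hkc, Hmono _ _ _ hH' subset_union_right⟩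
  · intro a
    rw [← card_pos]
    rcases Nat.eq_zero_or_pos ((S a).filter fun y => f a y ≤ quant N (S a) (f a)).card
      with h1 | h1
    · exfalso
      have h2 := hq1 a
      rw [h1, mul_zero] at h2
      have := (hSne a).card_pos
      omega
    · exact h1
  · exact fun a => (filter_subset _ _).trans (hspec a).2.1
  · intro x' hx'
    have h3 := hF.lt x hx
    refine lt_of_le_of_lt (sum_le_sum fun a _ => ?_) h3
    exact (mem_filter.mp (hx' a)).2
  · intro x' hx' a b hab i hi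
    have h1 : x' a i = x a i := (hspec a).2.2 (x' a) (mem_filter.mp (hx' a)).1 i hi
    have h2 : x' b i = x b i := (hspec b).2.2 (x' b) (mem_filter.mp (hx' b)).1 i hi
    rw [h1, h2]
    exact hval a b hab i hi
  · exact fun a => hdense (S a) (f a) (hq1 a) (hF.d a (x a) (hx a))

end CliqueRP
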