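import Pool.Agent.Lib.MP_678664_lc_CP.Explicit
import Pool.Agent.Lib.MP_678664_lc_RP.WalkR

/-!
# The lifting theorem for `R` parties
-/

open Finset

namespace CliqueRP

open CliqueCP

/-- A dag of conditions `∑ a, f v a (x a) < 0` on `R` points solving the search problem: find a
constraint violated for some pair of parties; at a leaf at most `t` candidates remain. -/
structure RDag {R q n m : ℕ} (g : Gad R q n) (S : Fin m → (Fin q → Bool) → Prop)
    (t s : ℕ) where
  f : Fin s → Fin R → Pt q n → ℝ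
  valid : ∀ v, (∃ P : Finset (Fin m), P.card ≤ t ∧
      ∀ x : Fin R → Pt q n, ∑ a, f v a (x a) < 0 →
        ∃ j ∈ P, ∃ a b, a < b ∧ ¬ S j (gv g a b x)) ∨
    ∃ u w, u < v ∧ w < v ∧ ∀ x : Fin R → Pt q n, ∑ a, f v a (x a) < 0 →
      ∑ a, f u a (x a) < 0 ∨ ∑ a, f w a (x a) < 0
  root : ∃ v, ∀ x : Fin R → Pt q n, ∑ a, f v a (x a) < 0

theorem lifting_abs {R q n N lam L M w m t s : ℕ} (hN : 2 ≤ N) (hn : n = N ^ 4)
    (hL : 6 * R * lam + 3 ≤ L)
    (hM : M * q * (2 * (4 * (q + 1)) ^ (3 * R * lam + 2)) < N)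
    {g : Gad R q n} (hg : GGood g M)
    (S : Fin m → (Fin q → Bool) → Prop) (V : Fin m → Finset (Fin q))
    (hV : ∀ j, (V j).card ≤ 5)
    (hS : ∀ j z z', (∀ i ∈ V j, z i = z' i) → S j z → S j z')
    (H : Finset (Fin q) → (Fin R → Fin R → Fin q → Bool) → Prop) (H0 : ∃ ρ, H ∅ ρ)
    (Hmono : ∀ K K' ρ, H K ρ → K' ⊆ K → H K' ρ)
    (Hext : ∀ K K' ρ, H K ρ → K ⊆ K' → K'.card ≤ w →
      ∃ ρ' : Fin R → Fin R → Fin q → Bool, (∀ a b, ∀ i ∈ K, ρ' a b i = ρ a b i) ∧ H K' ρ')
    (Hsat : ∀ K ρ j, H K ρ → V j ⊆ K → ∀ a b, S j (ρ a b))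
    (hw : 2 * R * lam ≤ w) (hw' : R * lam + 5 * t ≤ w) (T : RDag g S t s) :
    (N : ℝ) ^ lam ≤ 2 * (1 + 2 * (Fintype.card (Step q) : ℝ)) ^ L * s := by
  classical
  by_contra hcon
  push Not at hcon
  set Λ : ℝ := (N : ℝ) ^ lam with hΛ
  set D : ℝ := (1 + 2 * (Fintype.card (Step q) : ℝ)) ^ L with hD
  have hNr : (1 : ℝ) ≤ N := by exact_mod_cast (by omega : 1 ≤ N)
  have hΛ0 : 0 < Λ := by rw [hΛ]; positivity
  have hD0 : 0 ≤ D := by rw [hD]; positivity
  have hn0 : 0 < n := by rw [hn]; positivity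
  have hnq : (0 : ℝ) < (n : ℝ) ^ q := by
    have : (0 : ℝ) < n := by exact_mod_cast hn0
    positivity
  set F : Fin R → ℕ → Pt q n → ℝ := fun a v => if hv : v < s then T.f ⟨v, hv⟩ a else 0 with hF
  have hFv : ∀ (a : Fin R) (v : ℕ) (hv : v < s), F a v = T.f ⟨v, hv⟩ a := by
    intro a v hv; simp only [hF]; rw [dif_pos hv]
  -- ground sets are large
  have hlarge : ∀ (E : ℕ → Pt q n → ℝ) (v : ℕ), v ≤ s → n ^ q ≤ 2 * (gset N L Λ E v).card := by
    intro E v hv
    have h1 := card_gset N L Λ E v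
    rw [← hD] at h1
    have h2 : (v : ℝ) * (D * (n : ℝ) ^ q) ≤ s * (D * (n : ℝ) ^ q) := by
      have : (v : ℝ) ≤ s := by exact_mod_cast hv
      gcongr
    have h3 : (s : ℝ) * (D * (n : ℝ) ^ q) * 2 < Λ * (n : ℝ) ^ q := by
      calc (s : ℝ) * (D * (n : ℝ) ^ q) * 2 = (2 * D * s) * (n : ℝ) ^ q := by ring
        _ < _ := by gcongr
    have h4 : Λ * (n : ℝ) ^ q < Λ * (2 * (gset N L Λ E v).card) := by
      nlinarith
    have h5 : (n : ℝ) ^ q < 2 * (gset N L Λ E v).card := lt_of_mul_lt_mul_left h4 hΛ0.le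
    exact_mod_cast h5.le
  have hFpos : 0 < 2 * (4 * (q + 1)) ^ (3 * R * lam + 2) := by positivity
  -- no node has a state
  have key : ∀ (v : ℕ) (hv : v < s),
      ¬ State N lam g H (T.f ⟨v, hv⟩) (fun a => gset N L Λ (F a) v) := by
    intro v
    induction v using Nat.strong_induction_on with
    | _ v ih =>
      rintro hv ⟨K, A, ρ, hA, hAX, hT, hK, hdA, hKc, hH⟩
      -- descent to a child
      have child : ∀ (u : ℕ) (huv : u < v) (A₁ : Fin R → Finset (Pt q n)), (∀ a, A₁ a ⊆ A a) →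
          (∀ a, (A a).card ≤ 2 * (A₁ a).card) →
          (∀ x : Fin R → Pt q n, (∀ a, x a ∈ A₁ a) → ∑ a, T.f ⟨u, huv.trans hv⟩ a (x a) < 0) →
          False := by
        intro u huv A₁ hA₁ hAc hneg
        have hu : u < s := huv.trans hv
        have hXsub : ∀ a, A₁ a ⊆ gset N L Λ (F a) (u + 1) := fun a =>
          ((hA₁ a).trans (hAX a)).trans (gset_anti N L Λ (F a) (by omega))
        apply ih u huv hu
        refine descend (L := L) hN hn hL hM hg Hmono Hext hw (fun a => hlarge (F a) u hu.le)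
          (A := A) (A₁ := A₁) (ρ := ρ) (K := K)
          ?_ (fun a => (hXsub a).trans (gset_succ_subset N L Λ (F a) u)) ?_ hA₁ hAc hneg hK hdA
          hKc hH
        · intro a
          rw [← card_pos]
          have h1 := (hA a).card_pos
          have h2 := hAc a
          omega
        · intro a x hx
          have := (mem_sdiff.mp (hXsub a hx)).2
          rw [hFv a u hu] at this
          exact this
      rcases T.valid ⟨v, hv⟩ with ⟨P, hP, hleaf⟩ | ⟨a', b', ha, hb, hab⟩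
      · -- leaf
        obtain ⟨ρ', hρ', hH'⟩ := Hext K (K ∪ P.biUnion V) ρ hH subset_union_left (by
          have h1 := card_union_le K (P.biUnion V)
          have h2 : (P.biUnion V).card ≤ P.card * 5 := card_biUnion_le_card_mul _ _ _
            (fun j _ => hV j)
          omega)
        have hAF : ∀ a, (A a).card ≤ (2 * (4 * (q + 1)) ^ (3 * R * lam + 2)) * (A a).card :=
          fun a => Nat.le_mul_of_pos_left _ hFpos
        obtain ⟨x, hx, hxy⟩ := exists_tuple hg K A
          (fun a i hi b => dense_choice (hdA a) (Subset.refl _) (hAF a) (hA a) hM i hi b) hA ρ'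
        obtain ⟨j, hj, a, b, hab, hjn⟩ := hleaf x (hT x hx)
        apply hjn
        have hsub : V j ⊆ K ∪ P.biUnion V :=
          (subset_biUnion_of_mem V hj).trans subset_union_right
        refine hS j (ρ' a b) _ ?_ (Hsat _ _ j hH' hsub a b)
        intro i hi
        unfold gv
        by_cases hiK : i ∈ K
        · rw [hK x hx a b hab i hiK, hρ' a b i hiK]
        · rw [hxy a b hab i hiK]
      · -- internal node
        obtain ⟨A₁, hA₁, hAc, hor⟩ := exists_halves A hA (fun a => T.f a' a)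
        rcases hor with hneg | hpos
        · exact child a'.1 ha A₁ hA₁ hAc hneg
        · refine child b'.1 hb A₁ hA₁ hAc ?_
          intro x hx
          rcases hab x (hT x (fun a => hA₁ a (hx a))) with h1 | h1
          · have := hpos x hx
            linarith
          · exact h1
  -- the root
  obtain ⟨⟨v, hv⟩, hroot⟩ := T.root
  apply key v hv
  obtain ⟨ρ, hρ⟩ := H0
  have hnqN : 0 < n ^ q := by positivity
  have hdense : ∀ A : Finset (Pt q n), n ^ q ≤ 2 * A.card → Dense N ∅ A := by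
    intro A hA i _ b
    have h1 := card_const (slice A i b) {i} (fun _ => b) (by
      intro x hx j hj
      rw [mem_singleton] at hj
      subst hj
      exact (mem_slice.mp hx).2)
    rw [card_singleton, pow_one] at h1
    have h2 : (slice A i b).card * N ^ 4 ≤ 2 * A.card := by rw [← hn]; omega
    have h3 : N * 2 ≤ N ^ 4 := by
      calc N * 2 ≤ N * N ^ 3 := by
            apply Nat.mul_le_mul_left
            calc 2 ≤ 2 ^ 3 := by norm_num
              _ ≤ N ^ 3 := Nat.pow_le_pow_left hN 3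
        _ = N ^ 4 := by ring
    have h4 : (slice A i b).card * (N * 2) ≤ (slice A i b).card * N ^ 4 :=
      Nat.mul_le_mul_left _ h3
    nlinarith
  refine descend (L := L) hN hn hL hM hg Hmono Hext hw (fun a => hlarge (F a) v hv.le)
    (A := fun a => gset N L Λ (F a) (v + 1)) (A₁ := fun a => gset N L Λ (F a) (v + 1))
    (ρ := ρ) (K := ∅) ?_ (fun a => gset_succ_subset N L Λ (F a) v) ?_
    (fun a => Subset.refl _) (fun a => by omega)
    (fun x _ => hroot x) (fun _ _ _ _ _ i hi => by simp at hi)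
    (fun a => hdense _ (hlarge (F a) (v + 1) hv)) (by simp) hρ
  · intro a
    rw [← card_pos]
    have := hlarge (F a) (v + 1) hv
    omega
  · intro a x hx
    have := (mem_sdiff.mp hx).2
    rw [hFv a v hv] at this
    exact this

/-- The lifting theorem for expanding parity systems. -/
theorem lifting_explicit (R q lam p : ℕ) (hp1 : 1 ≤ p)
    (hp : gM R q p * q * (2 * (4 * (q + 1)) ^ (3 * R * lam + 2)) < 2 ^ p)
    (g : Gad R q (2 ^ (4 * p))) (hg : GGood g (gM R q p))
    (m : ℕ) (φ : Fin m → Fin 5 → Fin q) (rhs : Fin m → Bool) (r t s : ℕ)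
    (hφ : Expands φ r) (hr : 2 * (2 * R * lam + 5 * t) ≤ r) (hr2 : 2 ≤ r)
    (hT : Nonempty (RDag g (XSat φ rhs) t s)) :
    2 ^ (p * lam) ≤ 2 * (4 * q + 5) ^ (6 * R * lam + 3) * s := by
  classical
  obtain ⟨T⟩ := hT
  have hN : 2 ≤ 2 ^ p := by
    calc 2 = 2 ^ 1 := by norm_num
      _ ≤ 2 ^ p := Nat.pow_le_pow_right (by norm_num) hp1
  have h := lifting_abs (N := 2 ^ p) (lam := lam) (L := 6 * R * lam + 3)
    (w := 2 * R * lam + 5 * t) hN
    (by rw [← pow_mul]; ring_nf) (le_refl _) hp hg (XSat φ rhs) (xvars φ)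
    (fun j => by
      unfold xvars
      calc (univ.image (φ j)).card ≤ (univ : Finset (Fin 5)).card := card_image_le
        _ = 5 := by simp)
    (fun j z z' hz h => xsat_congr φ rhs j z z' hz h)
    (fun K ρ => ∀ a b, Cons φ rhs r K (ρ a b))
    ⟨fun _ _ _ => false, fun _ _ => cons_empty φ rhs r hφ _⟩
    (fun K K' ρ h hK a b => (h a b).mono hK)
    (fun K K' ρ h hK hKc => by
      choose ρ' h1 h2 using fun a b => (h a b).extendTo hφ hK (by omega)
      exact ⟨ρ', h1, h2⟩)
    (fun K ρ j h hj a b => (h a b).sat hr2 j hj) (by omega)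
    (by nlinarith [Nat.zero_le (R * lam)]) T
  rw [card_step] at h
  have h2 : ((2 ^ (p * lam) : ℕ) : ℝ) ≤
      ((2 * (4 * q + 5) ^ (6 * R * lam + 3) * s : ℕ) : ℝ) := by
    push_cast at h ⊢
    rw [pow_mul]
    calc ((2 : ℝ) ^ p) ^ lam ≤ 2 * (1 + 2 * (2 * (q : ℝ) + 2)) ^ (6 * R * lam + 3) * s := h
      _ = 2 * (4 * (q : ℝ) + 5) ^ (6 * R * lam + 3) * s := by ring_nf
  exact_mod_cast h2

end CliqueRP
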