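import Pool.Agent.Lib.MP_678664_lc_CP.GapFormula

/-!
# Refutations whose lines are sums over the parts of a partition of the positions: definitions
-/

open Finset

namespace CliqueGap

/-- A line with respect to a partition `κ` of the positions into `R` parts: the condition
`0 ≤ ∑ a, f a v`, where `f a` is an arbitrary real function of the vertices at the positions in
part `a`. -/
structure PartLine (k n R : ℕ) (κ : Fin k → Fin R) where
  f : Fin R → (Fin k → Fin n) → ℝ
  dep : ∀ (a : Fin R) (v w : Fin k → Fin n), (∀ i, κ i = a → v i = w i) → f a v = f a w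

/-- The line holds at the tuple `v` of vertices. -/
def PartLine.Holds {k n R : ℕ} {κ : Fin k → Fin R} (I : PartLine k n R κ) (v : Fin k → Fin n) :
    Prop := 0 ≤ ∑ a, I.f a v

/-- A refutation with `s` lines of this kind: every line is implied by the adjacency of the
vertices at some `t` positions, or is implied by two earlier lines; some line has no solution. -/
structure PartRefutation {k n R : ℕ} (G : SimpleGraph (Fin n)) (κ : Fin k → Fin R)
    (t s : ℕ) where
  line : Fin s → PartLine k n R κ
  valid : ∀ m, (∃ Q : Finset (Fin k), Q.card ≤ t ∧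
      ∀ v, (∀ i ∈ Q, ∀ j ∈ Q, i ≠ j → G.Adj (v i) (v j)) → (line m).Holds v) ∨
    ∃ a b, a < m ∧ b < m ∧ ∀ v, (line a).Holds v → (line b).Holds v → (line m).Holds v
  contra : ∃ m, ∀ v, ¬ (line m).Holds v

end CliqueGap
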