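import Pool.Agent.Lib.MP_678664_lc_CP.GapGraph
import Pool.Agent.Lib.MP_678664_lc_RP.LiftR
import Pool.Agent.Lib.MP_678664_lc_RP.PartDefs

/-!
# The graph of a parity system lifted to `R` parties
-/

open Finset

namespace CliqueRP

open CliqueCP CliqueGap

/-- Positions: `inl (a, i)` is the part of the values of party `a` on group `i`, `inr u` the
`u`-th universal vertex. -/
abbrev Pos (R K e : ℕ) := (Fin R × Fin K) ⊕ Fin e

/-- Vertices. -/
abbrev Vtx (R K ℓ n e : ℕ) := (Fin R × Fin K × (Fin ℓ → Fin 5 → Fin n)) ⊕ Fin e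

/-- The part of a vertex. -/
def vpos {R K ℓ n e : ℕ} : Vtx R K ℓ n e → Pos R K e
  | Sum.inl (a, i, _) => Sum.inl (a, i)
  | Sum.inr u => Sum.inr u

/-- Whether two vertices in different parts are compatible: the values of the same party agree,
and the common constraints of the groups hold for the pair of different parties. -/
def Compat {R q m K ℓ n e : ℕ} (φ : Fin m → Fin 5 → Fin q) (ψ : Fin K → Fin ℓ → Fin m)
    (rhs : Fin m → Bool) (g : Gad R q n) : Vtx R K ℓ n e → Vtx R K ℓ n e → Prop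
  | Sum.inl (a, i, u), Sum.inl (a', i', u') =>
      ∃ X : Fin R → Pt q n, u = grp φ ψ i (X a) ∧ u' = grp φ ψ i' (X a') ∧
        (a < a' → ∀ c c', ψ i c = ψ i' c' → XSat φ rhs (ψ i c) (gv g a a' X)) ∧
        (a' < a → ∀ c c', ψ i c = ψ i' c' → XSat φ rhs (ψ i c) (gv g a' a X))
  | Sum.inr _, _ => True
  | Sum.inl _, Sum.inr _ => True

theorem Compat.symm {R q m K ℓ n e : ℕ} {φ : Fin m → Fin 5 → Fin q}
    {ψ : Fin K → Fin ℓ → Fin m} {rhs : Fin m → Bool} {g : Gad R q n} {u v : Vtx R K ℓ n e}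
    (h : Compat φ ψ rhs g u v) : Compat φ ψ rhs g v u := by
  rcases u with ⟨a, i, u⟩ | u <;> rcases v with ⟨a', i', u'⟩ | v
  · obtain ⟨X, h1, h2, h3, h4⟩ := h
    refine ⟨X, h2, h1, fun hlt c c' hcc => ?_, fun hlt c c' hcc => ?_⟩
    · rw [hcc]
      exact h4 hlt c' c hcc.symm
    · rw [hcc]
      exact h3 hlt c' c hcc.symm
  · trivial
  · trivial
  · trivial

/-- The graph before padding. -/
def liftGraph {R q m K ℓ n : ℕ} (e : ℕ) (φ : Fin m → Fin 5 → Fin q)
    (ψ : Fin K → Fin ℓ → Fin m) (rhs : Fin m → Bool) (g : Gad R q n) :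
    SimpleGraph (Vtx R K ℓ n e) where
  Adj u v := vpos u ≠ vpos v ∧ Compat φ ψ rhs g u v
  symm := ⟨fun _ _ h => ⟨h.1.symm, h.2.symm⟩⟩
  loopless := ⟨fun _ h => h.1 rfl⟩

/-- A sum of numbers at most `K`, at most one of which reaches `θ`. -/
theorem sum_le_of_one {R K θ : ℕ} (c : Fin R → ℕ) (hK : ∀ a, c a ≤ K)
    (h1 : ∀ a b, a ≠ b → θ ≤ c a → θ ≤ c b → False) (hR : 2 ≤ R) :
    ∑ a, c a < K + (R - 1) * θ := by
  classical
  have hR0 : 0 < R := by omega
  -- all indices but one are small
  obtain ⟨a₀, ha₀⟩ : ∃ a₀ : Fin R, ∀ a, a ≠ a₀ → c a < θ := by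
    by_cases h : ∃ a, θ ≤ c a
    · obtain ⟨a₀, h0⟩ := h
      refine ⟨a₀, fun a ha => ?_⟩
      by_contra hcon
      push Not at hcon
      exact h1 a a₀ ha hcon h0
    · push Not at h
      exact ⟨⟨0, hR0⟩, fun a _ => h a⟩
  have hs : ∑ a, c a = c a₀ + ∑ a ∈ univ.erase a₀, c a :=
    (add_sum_erase univ c (mem_univ a₀)).symm
  have hcard : (univ.erase a₀ : Finset (Fin R)).card = R - 1 := by
    rw [card_erase_of_mem (mem_univ _), card_univ, Fintype.card_fin]
  have hne : (univ.erase a₀ : Finset (Fin R)).Nonempty := by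
    rw [← card_pos]; omega
  have hlt : ∑ a ∈ univ.erase a₀, c a < ∑ _a ∈ (univ.erase a₀ : Finset (Fin R)), θ :=
    sum_lt_sum_of_nonempty hne fun a ha => ha₀ a (ne_of_mem_erase ha)
  rw [sum_const, hcard, smul_eq_mul] at hlt
  rw [hs]
  have := hK a₀
  omega

/-- Two parties cannot both have many groups in a clique. -/
theorem pair_bound {R q m K ℓ n e θ A B : ℕ} (hn : 0 < n) (hθ : 1 ≤ θ)
    (φ : Fin m → Fin 5 → Fin q)
    (ψ : Fin K → Fin ℓ → Fin m) (rhs : Fin m → Bool)
    (hun : ∀ (z : Fin q → Bool) (T : Finset (Fin m)), (∀ j ∈ T, XSat φ rhs j z) → T.card < A)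
    (hcov : ∀ I : Finset (Fin K), θ ≤ I.card →
      B ≤ (I.biUnion fun i => univ.image (ψ i)).card)
    (hAB : A + m ≤ 2 * B) (g : Gad R q n) (S : Set (Vtx R K ℓ n e))
    (hcl : (liftGraph e φ ψ rhs g).IsClique S)
    (J : Fin R → Finset (Fin K))
    (hJ : ∀ a i, i ∈ J a → ∃ u, (Sum.inl (a, i, u) : Vtx R K ℓ n e) ∈ S)
    {a b : Fin R} (hab : a < b) (ha : θ ≤ (J a).card) (hb : θ ≤ (J b).card) : False := by
  classical
  let val : Fin R → Fin K → Fin ℓ → Fin 5 → Fin n := fun a i =>
    if h : ∃ u, (Sum.inl (a, i, u) : Vtx R K ℓ n e) ∈ S then h.choose else fun _ _ => ⟨0, hn⟩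
  have hval : ∀ a, ∀ i ∈ J a, (Sum.inl (a, i, val a i) : Vtx R K ℓ n e) ∈ S := by
    intro a i hi
    have hex := hJ a i hi
    simp only [val, dif_pos hex]
    exact hex.choose_spec
  have hRC : ∀ i ∈ J a, ∀ i' ∈ J b, ∃ X : Fin R → Pt q n, val a i = grp φ ψ i (X a) ∧
      val b i' = grp φ ψ i' (X b) ∧
      ∀ c c', ψ i c = ψ i' c' → XSat φ rhs (ψ i c) (gv g a b X) := by
    intro i hi i' hi'
    have hne : (Sum.inl (a, i, val a i) : Vtx R K ℓ n e) ≠ Sum.inl (b, i', val b i') := by
      intro h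
      have h1 := Sum.inl.inj h
      exact hab.ne (congrArg Prod.fst h1)
    obtain ⟨X, h1, h2, h3, -⟩ := (hcl (hval a i hi) (hval b i' hi') hne).2
    exact ⟨X, h1, h2, h3 hab⟩
  obtain ⟨i₁, hi₁⟩ : (J a).Nonempty := Finset.card_pos.1 (by omega)
  obtain ⟨i₂, hi₂⟩ : (J b).Nonempty := Finset.card_pos.1 (by omega)
  have hown : ∀ d, (∀ i ∈ J d, ∃ x : Pt q n, val d i = grp φ ψ i x) →
      ∀ i ∈ J d, ∀ i' ∈ J d,
      ∃ x : Pt q n, val d i = grp φ ψ i x ∧ val d i' = grp φ ψ i' x := by
    intro d hd i hi i' hi'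
    by_cases hii : i = i'
    · subst hii
      obtain ⟨x, hx⟩ := hd i hi
      exact ⟨x, hx, hx⟩
    · have hne : (Sum.inl (d, i, val d i) : Vtx R K ℓ n e) ≠ Sum.inl (d, i', val d i') := by
        intro h
        have h1 := Sum.inl.inj h
        exact hii (congrArg (fun z => z.2.1) h1)
      obtain ⟨X, h1, h2, -, -⟩ := (hcl (hval d i hi) (hval d i' hi') hne).2
      exact ⟨X d, h1, h2⟩
  obtain ⟨x, hx⟩ := exists_point hn φ ψ (J a) (val a) (hown a fun i hi => by
    obtain ⟨X, h1, -, -⟩ := hRC i hi i₂ hi₂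
    exact ⟨X a, h1⟩)
  obtain ⟨y, hy⟩ := exists_point hn φ ψ (J b) (val b) (hown b fun i hi => by
    obtain ⟨X, -, h1, -⟩ := hRC i₁ hi₁ i hi
    exact ⟨X b, h1⟩)
  -- the constraints covered by both parties are satisfied
  let C : Fin R → Finset (Fin m) := fun d => (J d).biUnion fun i => univ.image (ψ i)
  have hC1 : B ≤ (C a).card := hcov _ ha
  have hC2 : B ≤ (C b).card := hcov _ hb
  have hsat : ∀ j ∈ C a ∩ C b, XSat φ rhs j (gval (g a b) x y) := by
    intro j hj
    rw [mem_inter] at hj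
    obtain ⟨i, hi, hj1⟩ := mem_biUnion.1 hj.1
    obtain ⟨i', hi', hj2⟩ := mem_biUnion.1 hj.2
    obtain ⟨c, -, hc⟩ := mem_image.1 hj1
    obtain ⟨c', -, hc'⟩ := mem_image.1 hj2
    obtain ⟨X, hx', hy', hs⟩ := hRC i hi i' hi'
    have hcc : ψ i c = ψ i' c' := by rw [hc, hc']
    have h1 : XSat φ rhs (ψ i c) (gval (g a b) (X a) (X b)) := hs c c' hcc
    have h2 := xsat_congr_grp φ ψ rhs (g a b) hcc (x' := x) (y' := y)
      (by rw [← hx', ← hx i hi]) (by rw [← hy', ← hy i' hi']) h1
    rwa [hc] at h2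
  have hlt := hun _ _ hsat
  have hun2 : (C a ∪ C b).card ≤ m := by
    have := Finset.card_le_univ (C a ∪ C b)
    rwa [Fintype.card_fin] at this
  have hie := Finset.card_union_add_card_inter (C a) (C b)
  omega

/-- The graph has no large clique. -/
theorem liftGraph_cliqueFree {R q m K ℓ n e θ A B : ℕ} (hR : 2 ≤ R) (hn : 0 < n) (hθ : 1 ≤ θ)
    (φ : Fin m → Fin 5 → Fin q)
    (ψ : Fin K → Fin ℓ → Fin m) (rhs : Fin m → Bool)
    (hun : ∀ (z : Fin q → Bool) (T : Finset (Fin m)), (∀ j ∈ T, XSat φ rhs j z) → T.card < A)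
    (hcov : ∀ I : Finset (Fin K), θ ≤ I.card →
      B ≤ (I.biUnion fun i => univ.image (ψ i)).card)
    (hAB : A + m ≤ 2 * B) (g : Gad R q n) :
    (liftGraph e φ ψ rhs g).CliqueFree (K + (R - 1) * θ + e) := by
  classical
  intro S hS
  have hcl := hS.isClique
  have hcard := hS.card_eq
  let J : Fin R → Finset (Fin K) := fun a => univ.filter fun i => ∃ u, Sum.inl (a, i, u) ∈ S
  have hJm : ∀ a i, i ∈ J a → ∃ u, (Sum.inl (a, i, u) : Vtx R K ℓ n e) ∈ (S : Set _) :=
    fun a i hi => by
      obtain ⟨u, hu⟩ := (mem_filter.1 hi).2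
      exact ⟨u, hu⟩
  have hinj : Set.InjOn (vpos (R := R) (K := K) (ℓ := ℓ) (n := n) (e := e))
      (S : Set (Vtx R K ℓ n e)) := by
    intro u hu v hv huv
    by_contra hne
    exact (hcl hu hv hne).1 huv
  have hle : S.card ≤ (∑ a, (J a).card) + e := by
    have h1 : S.image vpos ⊆ ((univ : Finset (Fin R)).biUnion fun a =>
        (J a).image fun i => (Sum.inl (a, i) : Pos R K e)) ∪
        (univ : Finset (Fin e)).image Sum.inr := by
      intro P hP
      obtain ⟨v, hv, rfl⟩ := mem_image.1 hP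
      rcases v with ⟨a, i, u⟩ | u
      · refine mem_union_left _ (mem_biUnion.2 ⟨a, mem_univ _, mem_image_of_mem _ ?_⟩)
        exact mem_filter.2 ⟨mem_univ _, u, hv⟩
      · exact mem_union_right _ (mem_image_of_mem _ (mem_univ u))
    rw [← Finset.card_image_of_injOn hinj]
    refine (Finset.card_le_card h1).trans ?_
    refine (Finset.card_union_le _ _).trans ?_
    refine Nat.add_le_add ?_ (Finset.card_image_le.trans (by simp))
    exact card_biUnion_le.trans (sum_le_sum fun a _ => Finset.card_image_le)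
  have hJK : ∀ b, (J b).card ≤ K := by
    intro b
    have := Finset.card_le_univ (J b)
    rwa [Fintype.card_fin] at this
  have hlt := sum_le_of_one (θ := θ) (fun a => (J a).card) hJK (by
    intro a b hab h1 h2
    rcases lt_or_gt_of_ne hab with h | h
    · exact pair_bound hn hθ φ ψ rhs hun hcov hAB g _ hcl J hJm h h1 h2
    · exact pair_bound hn hθ φ ψ rhs hun hcov hAB g _ hcl J hJm h h2 h1) hR
  omega

/-- The vertex selected by the points `X` at a position. -/
def selVtx {R q m K ℓ n e : ℕ} (φ : Fin m → Fin 5 → Fin q) (ψ : Fin K → Fin ℓ → Fin m)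
    (X : Fin R → Pt q n) : Pos R K e → Vtx R K ℓ n e
  | Sum.inl (a, i) => Sum.inl (a, i, grp φ ψ i (X a))
  | Sum.inr u => Sum.inr u

theorem vpos_selVtx {R q m K ℓ n e : ℕ} (φ : Fin m → Fin 5 → Fin q)
    (ψ : Fin K → Fin ℓ → Fin m) (X : Fin R → Pt q n) (P : Pos R K e) :
    vpos (selVtx φ ψ X P) = P := by
  rcases P with ⟨a, j⟩ | u <;> rfl

/-- Two selected vertices at different positions are adjacent unless their groups contain a
constraint violated for their parties. -/
theorem adj_selVtx {R q m K ℓ n e : ℕ} (φ : Fin m → Fin 5 → Fin q) (ψ : Fin K → Fin ℓ → Fin m)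
    (rhs : Fin m → Bool) (g : Gad R q n) (X : Fin R → Pt q n) {P Q : Pos R K e}
    (hPQ : P ≠ Q)
    (h : ¬ (liftGraph e φ ψ rhs g).Adj (selVtx φ ψ X P) (selVtx φ ψ X Q)) :
    ∃ i c a b, a < b ∧ ¬ XSat φ rhs (ψ i c) (gv g a b X) ∧ ∃ a', P = Sum.inl (a', i) := by
  have hpos : vpos (selVtx φ ψ X P) ≠ vpos (selVtx φ ψ X Q) := by
    rwa [vpos_selVtx, vpos_selVtx]
  have hC : ¬ Compat φ ψ rhs g (selVtx φ ψ X P) (selVtx φ ψ X Q) := fun hc => h ⟨hpos, hc⟩
  rcases P with ⟨a, i⟩ | u <;> rcases Q with ⟨b, i'⟩ | v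
  · by_contra hno
    push Not at hno
    refine hC ⟨X, rfl, rfl, fun hlt c c' _ => ?_, fun hlt c c' _ => ?_⟩
    · by_contra hs
      exact hno i c a b hlt hs a rfl
    · by_contra hs
      exact hno i c b a hlt hs a rfl
  · exact absurd trivial hC
  · exact absurd trivial hC
  · exact absurd trivial hC

/-- The tuple of vertices given by the points `X`. -/
def selTup {R q m K ℓ n e N k : ℕ} (φ : Fin m → Fin 5 → Fin q) (ψ : Fin K → Fin ℓ → Fin m)
    (π : Fin k ≃ Pos R K e) (ι : Vtx R K ℓ n e ↪ Fin N) (X : Fin R → Pt q n) :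
    Fin k → Fin N :=
  fun i => ι (selVtx φ ψ X (π i))

/-- The party of a position; the `u`-th universal vertex is given to party `u`. -/
def party {R K e : ℕ} (he : e ≤ R) : Pos R K e → Fin R
  | Sum.inl (a, _) => a
  | Sum.inr u => Fin.castLE he u

theorem selTup_congr {R q m K ℓ n e N k : ℕ} (φ : Fin m → Fin 5 → Fin q)
    (ψ : Fin K → Fin ℓ → Fin m) (π : Fin k ≃ Pos R K e) (ι : Vtx R K ℓ n e ↪ Fin N)
    (he : e ≤ R) (X X' : Fin R → Pt q n) (a : Fin R) (hX : X a = X' a) (i : Fin k)
    (hi : party he (π i) = a) :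
    selTup φ ψ π ι X i = selTup φ ψ π ι X' i := by
  unfold selTup
  rcases hp : π i with ⟨b, j⟩ | u
  · rw [hp] at hi
    simp only [party] at hi
    subst hi
    simp only [selVtx, hX]
  · rfl

/-- The reduction. -/
theorem graph_reduction {R q m K ℓ n e N θ A B : ℕ} (hR : 2 ≤ R) (hn : 0 < n) (hθ : 1 ≤ θ)
    (hK : 0 < K) (he : e ≤ R)
    (hN : R * K * n ^ (5 * ℓ) + e ≤ N)
    (φ : Fin m → Fin 5 → Fin q)
    (ψ : Fin K → Fin ℓ → Fin m) (rhs : Fin m → Bool)
    (hun : ∀ (z : Fin q → Bool) (T : Finset (Fin m)), (∀ j ∈ T, XSat φ rhs j z) → T.card < A)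
    (hcov : ∀ I : Finset (Fin K), θ ≤ I.card →
      B ≤ (I.biUnion fun i => univ.image (ψ i)).card)
    (hAB : A + m ≤ 2 * B)
    (g : Gad R q n) :
    ∃ G : SimpleGraph (Fin N), G.CliqueFree (K + (R - 1) * θ + e) ∧
      ∃ κ : Fin (R * K + e) → Fin R,
        (∀ a, K ≤ (univ.filter fun i => κ i = a).card ∧
          (univ.filter fun i => κ i = a).card ≤ K + 1) ∧
      ∀ t s : ℕ, Nonempty (PartRefutation G κ t s) →
        Nonempty (RDag g (XSat φ rhs) (ℓ * t) s) := by
  classical
  have hcardV : Fintype.card (Vtx R K ℓ n e) = R * K * n ^ (5 * ℓ) + e := by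
    simp [Fintype.card_sum, Fintype.card_prod, mul_assoc, pow_mul]
  have hcardP : Fintype.card (Pos R K e) = R * K + e := by
    simp [Fintype.card_sum, Fintype.card_prod]
  obtain ⟨ι⟩ : Nonempty (Vtx R K ℓ n e ↪ Fin N) := by
    apply Function.Embedding.nonempty_of_card_le
    rw [hcardV, Fintype.card_fin]
    exact hN
  obtain ⟨π⟩ : Nonempty (Fin (R * K + e) ≃ Pos R K e) := by
    apply Fintype.card_eq.1
    rw [hcardP, Fintype.card_fin]
  have hne : Nonempty (Vtx R K ℓ n e) :=
    ⟨Sum.inl (⟨0, by omega⟩, ⟨0, hK⟩, fun _ _ => ⟨0, hn⟩)⟩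
  have hfree : ((liftGraph e φ ψ rhs g).map ι).CliqueFree (K + (R - 1) * θ + e) := by
    rw [SimpleGraph.cliqueFree_map_iff]
    exact liftGraph_cliqueFree hR hn hθ φ ψ rhs hun hcov hAB g
  refine ⟨(liftGraph e φ ψ rhs g).map ι, hfree, fun i => party he (π i), ?_, ?_⟩
  · intro a
    have h1 : ((univ : Finset (Fin K)).image fun j => π.symm (Sum.inl (a, j))) ⊆
        univ.filter fun i => party he (π i) = a := by
      intro i hi
      obtain ⟨j, -, rfl⟩ := mem_image.1 hi
      rw [mem_filter]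
      exact ⟨mem_univ _, by rw [Equiv.apply_symm_apply]; rfl⟩
    have h2 : (univ.filter fun i => party he (π i) = a) ⊆
        ((univ : Finset (Fin K)).image fun j => π.symm (Sum.inl (a, j))) ∪
        ((univ.filter fun u : Fin e => Fin.castLE he u = a).image fun u =>
          π.symm (Sum.inr u)) := by
      intro i hi
      have hi2 := (mem_filter.1 hi).2
      rcases hp : π i with ⟨b, j⟩ | u
      · rw [hp] at hi2
        simp only [party] at hi2
        subst hi2
        refine mem_union_left _ (mem_image.2 ⟨j, mem_univ _, ?_⟩)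
        rw [← hp, Equiv.symm_apply_apply]
      · rw [hp] at hi2
        simp only [party] at hi2
        refine mem_union_right _ (mem_image.2 ⟨u, mem_filter.2 ⟨mem_univ _, hi2⟩, ?_⟩)
        rw [← hp, Equiv.symm_apply_apply]
    have hc1 : ((univ : Finset (Fin K)).image fun j => π.symm (Sum.inl (a, j))).card = K := by
      rw [card_image_of_injective, card_univ, Fintype.card_fin]
      intro j j' hjj
      have := π.symm.injective hjj
      simpa using this
    have hc2 : ((univ.filter fun u : Fin e => Fin.castLE he u = a).image fun u =>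
        π.symm (Sum.inr u)).card ≤ 1 := by
      refine Finset.card_image_le.trans ?_
      rw [Finset.card_le_one]
      intro u hu u' hu'
      have h3 := (mem_filter.1 hu).2
      have h4 := (mem_filter.1 hu').2
      exact Fin.castLE_injective he (h3.trans h4.symm)
    constructor
    · exact hc1.ge.trans (card_le_card h1)
    · refine (card_le_card h2).trans ((card_union_le _ _).trans ?_)
      omega
  · rintro t s ⟨Rf⟩
    set z0 : Pt q n := fun _ => ⟨0, hn⟩ with hz0
    have hholds : ∀ (r : Fin s) (X : Fin R → Pt q n), (Rf.line r).Holds (selTup φ ψ π ι X) ↔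
        ¬ (∑ a, (Rf.line r).f a (selTup φ ψ π ι (Function.update (fun _ => z0) a (X a))) < 0) := by
      intro r X
      unfold PartLine.Holds
      rw [not_lt]
      have hs : ∑ a, (Rf.line r).f a (selTup φ ψ π ι X) =
          ∑ a, (Rf.line r).f a (selTup φ ψ π ι (Function.update (fun _ => z0) a (X a))) := by
        apply sum_congr rfl
        intro a _
        apply (Rf.line r).dep
        intro i hi
        exact selTup_congr φ ψ π ι he X _ a (by simp) i hi
      rw [hs]
    refine ⟨⟨fun r a x => (Rf.line r).f a (selTup φ ψ π ι (Function.update (fun _ => z0) a x)),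
      ?_, ?_⟩⟩
    · intro r
      rcases Rf.valid r with ⟨P, hPt, hP⟩ | ⟨a, b, ha, hb, hab⟩
      · left
        let J : Finset (Fin K) := univ.filter fun j => ∃ i ∈ P, ∃ a, π i = Sum.inl (a, j)
        have hJ : J.card ≤ t := by
          refine le_trans ?_ hPt
          have hsub : J.image some ⊆
              P.image fun i => Sum.elim (fun z => some z.2) (fun _ => none) (π i) := by
            intro o ho
            obtain ⟨j, hj, rfl⟩ := mem_image.1 ho
            obtain ⟨i, hi, a, hia⟩ := (mem_filter.1 hj).2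
            refine mem_image.2 ⟨i, hi, ?_⟩
            rw [hia]
            rfl
          calc J.card = (J.image some).card :=
                (Finset.card_image_of_injective _ (Option.some_injective _)).symm
            _ ≤ _ := Finset.card_le_card hsub
            _ ≤ P.card := Finset.card_image_le
        refine ⟨J.biUnion fun i => univ.image (ψ i), ?_, ?_⟩
        · calc (J.biUnion fun i => univ.image (ψ i)).card ≤ J.card * ℓ := by
                apply Finset.card_biUnion_le_card_mul
                intro i _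
                exact Finset.card_image_le.trans (by simp)
            _ ≤ t * ℓ := Nat.mul_le_mul_right _ hJ
            _ = ℓ * t := mul_comm _ _
        · intro X hX
          have hnot : ¬ (Rf.line r).Holds (selTup φ ψ π ι X) := by
            rw [hholds]
            exact fun h => h hX
          by_contra hno
          push Not at hno
          apply hnot
          apply hP
          intro i hi j hj hij
          unfold selTup
          rw [SimpleGraph.map_adj_apply]
          by_contra hadj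
          have hne : π i ≠ π j := fun h => hij (π.injective h)
          obtain ⟨i0, c, a, b, hab, hc, a', hP'⟩ := adj_selVtx φ ψ rhs g X hne hadj
          apply hc
          refine hno _ ?_ a b hab
          rw [mem_biUnion]
          exact ⟨i0, mem_filter.2 ⟨mem_univ _, i, hi, a', hP'⟩,
            mem_image_of_mem _ (mem_univ _)⟩
      · right
        refine ⟨a, b, ha, hb, fun X hX => ?_⟩
        by_contra hno
        push Not at hno
        have h1 : (Rf.line a).Holds (selTup φ ψ π ι X) := by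
          rw [hholds]; exact not_lt.2 hno.1
        have h2 : (Rf.line b).Holds (selTup φ ψ π ι X) := by
          rw [hholds]; exact not_lt.2 hno.2
        have h3 := hab _ h1 h2
        rw [hholds] at h3
        exact h3 hX
    · obtain ⟨r, hr⟩ := Rf.contra
      refine ⟨r, fun X => ?_⟩
      have := hr (selTup φ ψ π ι X)
      rw [hholds, not_not] at this
      exact this

end CliqueRP
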