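import Pool.Agent.Lib.MP_678664_lc_CP.GapCore
import Pool.Agent.Lib.MP_678664_lc_RP.GraphR

/-!
# The choice of the parameters, `R` parties
-/

open Finset

namespace CliqueRP

open CliqueCP CliqueGap

/-- The arithmetic of the size condition: `k ^ (9 k) ≤ 2 ^ p` gives room for the constants. -/
theorem room {k R q lam p : ℕ} (hk : 300 ≤ k) (hRk : 2 ^ R ≤ k) (hRq : R * q ≤ k)
    (hq : 2 * (q + 1) ≤ k) (hlam : 3 * R * lam + 2 ≤ q) (hp1 : 1 ≤ p)
    (hp : k ^ (9 * k) ≤ 2 ^ p) :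
    gM R q p * q * (2 * (4 * (q + 1)) ^ (3 * R * lam + 2)) < 2 ^ p := by
  have hk1 : 1 ≤ k := by omega
  have hRlt : R ≤ k := (Nat.lt_two_pow_self).le.trans hRk
  have hqk : q ≤ k := by omega
  have h4 : 4 * (q + 1) ≤ k ^ 2 := by nlinarith
  have hin : 4 * p * q * R ^ 2 + R ^ 2 * q + q + 1 ≤ k ^ 4 * p := by
    have e1 : q * R ^ 2 ≤ k ^ 3 := by
      calc q * R ^ 2 ≤ k * k ^ 2 := Nat.mul_le_mul hqk (Nat.pow_le_pow_left hRlt 2)
        _ = k ^ 3 := by ring
    have e2 : q ≤ k ^ 3 := hqk.trans (Nat.le_self_pow (by norm_num) k)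
    have e3 : 1 ≤ k ^ 3 := Nat.one_le_pow _ _ hk1
    have e4 : 7 * k ^ 3 ≤ k ^ 4 := by
      calc 7 * k ^ 3 ≤ k * k ^ 3 := Nat.mul_le_mul_right _ (by omega)
        _ = k ^ 4 := by ring
    calc 4 * p * q * R ^ 2 + R ^ 2 * q + q + 1
        = 4 * p * (q * R ^ 2) + (q * R ^ 2) + q + 1 := by ring
      _ ≤ 4 * p * k ^ 3 + k ^ 3 + k ^ 3 + k ^ 3 := by gcongr
      _ ≤ 4 * p * k ^ 3 + k ^ 3 * p + k ^ 3 * p + k ^ 3 * p := by
          have : k ^ 3 ≤ k ^ 3 * p := Nat.le_mul_of_pos_right _ (by omega)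
          omega
      _ = (7 * k ^ 3) * p := by ring
      _ ≤ k ^ 4 * p := Nat.mul_le_mul_right _ e4
  have h2R : 2 ^ (R ^ 2 * q) ≤ k ^ k := by
    calc 2 ^ (R ^ 2 * q) = (2 ^ R) ^ (R * q) := by rw [← pow_mul]; congr 1; ring
      _ ≤ k ^ (R * q) := Nat.pow_le_pow_left hRk _
      _ ≤ k ^ k := Nat.pow_le_pow_right hk1 hRq
  have hgM : gM R q p ≤ k * (k ^ k * (k ^ 4 * p)) := by
    unfold gM
    gcongr
  have hb : gM R q p * q * (2 * (4 * (q + 1)) ^ (3 * R * lam + 2)) ≤ k ^ (3 * k) * p := by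
    calc gM R q p * q * (2 * (4 * (q + 1)) ^ (3 * R * lam + 2))
        ≤ (k * (k ^ k * (k ^ 4 * p))) * k * (k * (k ^ 2) ^ q) := by
          have e3 : (4 * (q + 1)) ^ (3 * R * lam + 2) ≤ (k ^ 2) ^ q :=
            (Nat.pow_le_pow_left h4 _).trans (Nat.pow_le_pow_right (by positivity) hlam)
          have e4 : 2 ≤ k := by omega
          gcongr
      _ = k ^ (k + 2 * q + 7) * p := by
          rw [← pow_mul]
          ring
      _ ≤ k ^ (3 * k) * p :=
          Nat.mul_le_mul_right _ (Nat.pow_le_pow_right hk1 (by omega))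
  refine lt_of_le_of_lt hb ?_
  have h3 : (k ^ (3 * k) * p) ^ 3 < (2 ^ p) ^ 3 := by
    have e1 : (k ^ (3 * k)) ^ 3 = k ^ (9 * k) := by rw [← pow_mul]; congr 1; ring
    have e2 : (2 ^ p) ^ 3 = 2 ^ p * 4 ^ p := by
      rw [show (4 : ℕ) = 2 ^ 2 by norm_num, ← pow_mul, ← pow_mul, ← pow_add]
      congr 1
      ring
    rw [mul_pow, e1, e2]
    have h5 := cube_lt p
    have h6 : 0 < 2 ^ p := by positivity
    calc k ^ (9 * k) * p ^ 3 ≤ 2 ^ p * p ^ 3 := Nat.mul_le_mul_right _ hp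
      _ < 2 ^ p * 4 ^ p := Nat.mul_lt_mul_of_pos_left h5 h6
  exact lt_of_pow_lt_pow_left₀ 3 (by positivity) h3

/-- The lower bound for lines split into `R` parts. -/
theorem part_core (R E : ℕ) (hR : 2 ≤ R) (hE : 0 < E) :
    ∃ c : ℝ, 0 < c ∧ ∃ C k₀ : ℕ, ∀ k ≥ k₀, ∀ n : ℕ, k ^ (C * k) ≤ n →
    ∃ G : SimpleGraph (Fin n),
      (∀ m, k / R + (R - 1) * (k / R / E + 1) + R ≤ m → G.CliqueFree m) ∧
      ∃ κ : Fin k → Fin R, (∀ a, k / R ≤ (univ.filter fun i => κ i = a).card ∧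
        (univ.filter fun i => κ i = a).card ≤ k / R + 1) ∧
      ∀ t s : ℕ, (t : ℝ) ≤ c * k → Nonempty (PartRefutation G κ t s) →
        (n : ℝ) ^ (c * k) ≤ s := by
  set A := 20 * (7 * E) with hA
  have hA0 : 0 < A := by omega
  have hR0 : 0 < R := by omega
  refine ⟨1 / (A * (4 * 10 ^ 8 * R ^ 2)), by positivity, 100 * A, 10 ^ 9 * R ^ 2 + 2 ^ R,
    fun k hk n hn => ?_⟩
  have hkR : 10 ^ 9 * R ^ 2 ≤ k := (Nat.le_add_right _ _).trans hk
  have hk2R : 2 ^ R ≤ k := (Nat.le_add_left _ _).trans hk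
  have hk9 : 10 ^ 9 ≤ k :=
    (Nat.le_mul_of_pos_right _ (by positivity)).trans hkR
  set κ := k / R with hκ
  set e := k % R with he
  have hkκ : k = R * κ + e := (Nat.div_add_mod k R).symm
  have heR : e < R := Nat.mod_lt _ hR0
  have hκk : R * κ ≤ k := by omega
  have hκk' : κ ≤ k := by nlinarith
  set q := κ / 32 with hq
  set r := q / 50000 with hr
  set lam := r / (16 * R) with hlam
  have b1 : κ + 1 ≤ 32 * (q + 1) := by omega
  have b2 : q + 1 ≤ 50000 * (r + 1) := by omega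
  have b3 : r + 1 ≤ 16 * R * (lam + 1) := by
    have := Nat.lt_mul_div_succ r (show 0 < 16 * R by omega)
    rw [← hlam] at this
    exact this
  have b4 : k ≤ 25600000 * R ^ 2 * (lam + 1) := by
    have c1 : k ≤ R * (κ + 1) := by rw [mul_add]; omega
    calc k ≤ R * (κ + 1) := c1
      _ ≤ R * (32 * (50000 * (16 * R * (lam + 1)))) := by
          refine Nat.mul_le_mul_left _ (b1.trans (Nat.mul_le_mul_left _ (b2.trans
            (Nat.mul_le_mul_left _ b3))))
      _ = _ := by ring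
  have hlam1 : 1 ≤ lam := by
    rcases Nat.eq_zero_or_pos lam with h | h
    · rw [h] at b4
      have : 0 < R ^ 2 := by positivity
      omega
    · exact h
  have hlamk : k ≤ 200000000 * R ^ 2 * lam := by
    calc k ≤ 25600000 * R ^ 2 * (lam + 1) := b4
      _ ≤ 25600000 * R ^ 2 * (2 * lam) := Nat.mul_le_mul_left _ (by omega)
      _ ≤ 200000000 * R ^ 2 * lam := by nlinarith [Nat.zero_le (R ^ 2 * lam)]
  have hRlam : 16 * (R * lam) ≤ r := by
    have := Nat.div_mul_le_self r (16 * R)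
    rw [← hlam] at this
    calc 16 * (R * lam) = lam * (16 * R) := by ring
      _ ≤ r := this
  have hr0 : 16 ≤ r := by nlinarith
  have hrq : 50000 * r ≤ q := by omega
  have hq0 : 0 < q := by omega
  have hqκ : 32 * q ≤ κ := by omega
  have hRq : R * q ≤ k := (Nat.mul_le_mul_left R (by omega)).trans hκk
  obtain ⟨φ, hφ⟩ := exists_gap_expander q hq0
  obtain ⟨rhs, hrhs⟩ := exists_gap_rhs hq0 φ
  set θ := κ / E + 1 with hθ
  have hθE : κ ≤ E * θ := by
    have h1 := Nat.div_add_mod κ E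
    have h2 := Nat.mod_lt κ hE
    rw [hθ, mul_add]
    omega
  obtain ⟨ψ, hψ⟩ := exists_groups (K := κ) (θ := θ) (ℓ := 7 * E) hq0 hqκ
    (by rw [mul_assoc]; exact Nat.mul_le_mul_left 7 hθE)
  set Q := R * κ + R with hQ
  set K := Q * 2 ^ A with hKdef
  have hQ0 : 0 < Q := by omega
  have hk1 : 1 ≤ k := by omega
  have hRk : R ≤ k := (Nat.lt_two_pow_self).le.trans hk2R
  have hQk : Q ≤ k ^ 2 := by nlinarith
  have hKk : K ≤ k ^ (A + 2) := by
    calc K = Q * 2 ^ A := rfl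
      _ ≤ k ^ 2 * k ^ A := Nat.mul_le_mul hQk (Nat.pow_le_pow_left (by omega) A)
      _ = k ^ (A + 2) := by ring
  have hRlamk : 800 * (R * lam) ≤ k := by omega
  have hlamRlam : lam ≤ R * lam := Nat.le_mul_of_pos_left _ hR0
  have hAk : A ≤ A * k := Nat.le_mul_of_pos_right A (by omega)
  have hAlam : A * (R * lam) * 800 ≤ A * k := by
    calc A * (R * lam) * 800 = A * (800 * (R * lam)) := by ring
      _ ≤ A * k := Nat.mul_le_mul_left A hRlamk
  have hlamA : lam ≤ A * k := by nlinarith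
  set p := Nat.log (2 ^ A) (n / Q) with hp
  have h2A : 1 < 2 ^ A := Nat.one_lt_two_pow (by omega)
  have hQn : Q ≤ n := by
    refine hQk.trans (le_trans (Nat.pow_le_pow_right hk1 ?_) hn)
    nlinarith
  have hdiv0 : n / Q ≠ 0 := by
    have := Nat.div_pos hQn hQ0
    omega
  have hple : Q * (2 ^ A) ^ p ≤ n := by
    have h1 : (2 ^ A) ^ p ≤ n / Q := Nat.pow_log_le_self _ hdiv0
    rw [Nat.le_div_iff_mul_le hQ0, mul_comm] at h1
    exact h1
  have hplt : n ≤ K * 2 ^ (A * p) := by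
    have h1 : n / Q < (2 ^ A) ^ (p + 1) := Nat.lt_pow_succ_log_self h2A _
    rw [Nat.div_lt_iff_lt_mul hQ0] at h1
    refine h1.le.trans (le_of_eq ?_)
    rw [hKdef, pow_succ, pow_mul 2 A p]
    exact pow_aux _ _ _
  -- the size of `p`
  have hpk : k ^ (9 * k) ≤ 2 ^ p := by
    have h1 : k ^ (100 * A * k) ≤ k ^ (A + 2) * 2 ^ (A * p) :=
      hn.trans (hplt.trans (Nat.mul_le_mul_right _ hKk))
    have h2 : k ^ (A + 2) * k ^ (9 * k * A) ≤ k ^ (100 * A * k) := by
      rw [← pow_add]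
      apply Nat.pow_le_pow_right hk1
      nlinarith
    have h3 : k ^ (9 * k * A) ≤ 2 ^ (A * p) :=
      Nat.le_of_mul_le_mul_left (h2.trans h1) (by positivity)
    have h4 : (k ^ (9 * k)) ^ A ≤ (2 ^ p) ^ A := by
      rw [← pow_mul, ← pow_mul, mul_comm p A]
      exact h3
    exact le_of_pow_le_pow_left₀ (by omega) (by positivity) h4
  have hp1 : 1 ≤ p := by
    rcases Nat.eq_zero_or_pos p with h | h
    · rw [h, pow_zero] at hpk
      have h1 : k ≤ k ^ (9 * k) := Nat.le_self_pow (by omega) k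
      omega
    · exact h
  obtain ⟨g, hg⟩ := exists_gad R q p
  have hN : R * κ * (2 ^ (4 * p)) ^ (5 * (7 * E)) + e ≤ n := by
    refine le_trans ?_ hple
    have h1 : (2 ^ (4 * p)) ^ (5 * (7 * E)) = (2 ^ A) ^ p := by
      rw [← pow_mul, ← pow_mul]
      congr 1
      rw [hA]
      ring
    have h2 : 0 < (2 ^ A) ^ p := by positivity
    rw [h1, hQ, add_mul]
    have h3 : e ≤ R * (2 ^ A) ^ p := heR.le.trans (Nat.le_mul_of_pos_right _ h2)
    omega
  obtain ⟨G, hG, part, hpart, hred⟩ := graph_reduction (R := R) (N := n) (θ := θ)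
    (A := 20 * q) (B := 26 * q) hR
    (by positivity) (Nat.le_add_left 1 _) (by omega) heR.le hN φ ψ rhs hrhs hψ (by omega) g
  have hroom := room (k := k) (R := R) (q := q) (lam := lam) (p := p) (by omega) hk2R hRq
    (by omega)
    (by
      have e1 : 3 * R * lam = 3 * (R * lam) := by ring
      omega) hp1 hpk
  have hn1 : 1 ≤ n := Nat.succ_le_of_lt (hQ0.trans_le hQn)
  have hconst : (2 * (4 * q + 5) ^ (6 * R * lam + 3)) ^ (2 * A) * K ^ (2 * lam) ≤ n := by
    refine le_trans ?_ hn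
    calc (2 * (4 * q + 5) ^ (6 * R * lam + 3)) ^ (2 * A) * K ^ (2 * lam)
        ≤ (k * (k ^ 2) ^ (6 * R * lam + 3)) ^ (2 * A) * (k ^ (A + 2)) ^ (2 * lam) := by
          have e1 : 2 ≤ k := by omega
          have e2 : 4 * q + 5 ≤ k ^ 2 := by nlinarith
          gcongr
      _ = k ^ ((12 * (R * lam) + 7) * (2 * A) + (A + 2) * (2 * lam)) := by
          rw [← pow_mul, ← pow_mul, ← pow_succ', ← pow_mul, ← pow_add]
          congr 2
          ring
      _ ≤ k ^ (100 * A * k) := by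
          apply Nat.pow_le_pow_right hk1
          have c1 : A * lam ≤ A * (R * lam) := Nat.mul_le_mul_left A hlamRlam
          nlinarith
  have hbound : ∀ t s : ℕ, 40 * (7 * E * t) ≤ lam → Nonempty (PartRefutation G part t s) →
      (n : ℝ) ^ (1 / (A * (4 * 10 ^ 8 * R ^ 2)) * ((R * κ + e : ℕ) : ℝ)) ≤ s := by
    intro t s ht hRf
    have hT := hred t s hRf
    have hs := lifting_explicit R q lam p hp1 hroom g hg (32 * q) φ rhs r (7 * E * t) s hφ
      (by
        have e1 : 2 * R * lam = 2 * (R * lam) := by ring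
        omega) (by omega) hT
    have hfin := final_bound_gen (A := A) (C := 2 * (4 * q + 5) ^ (6 * R * lam + 3)) (K := K)
      (n := n) (p := p) (lam := lam) (s := s) hlam1 hplt hconst (by positivity)
      (by positivity) hs
    refine rpow_le_gen hA0 hn1 ?_ hfin
    have h1 : ((R * κ + e : ℕ) : ℝ) ≤ 200000000 * R ^ 2 * lam := by
      rw [← hkκ]; exact_mod_cast hlamk
    have hA' : (0 : ℝ) < A := by exact_mod_cast hA0
    have hR' : (0 : ℝ) < R := by exact_mod_cast hR0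
    rw [Nat.cast_mul, Nat.cast_two]
    have h2 : 2 * (A : ℝ) * (1 / (A * (4 * 10 ^ 8 * R ^ 2)) * ((R * κ + e : ℕ) : ℝ)) =
        ((R * κ + e : ℕ) : ℝ) / (200000000 * R ^ 2) := by
      rw [eq_div_iff (by positivity)]
      have h3 : (A : ℝ) ≠ 0 := hA'.ne'
      have h4 : (R : ℝ) ≠ 0 := hR'.ne'
      field_simp
      ring
    rw [h2, div_le_iff₀ (by positivity)]
    linarith
  have hmain : ∃ G : SimpleGraph (Fin n),
      (∀ m, κ + (R - 1) * (κ / E + 1) + R ≤ m → G.CliqueFree m) ∧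
      ∃ part : Fin (R * κ + e) → Fin R, (∀ a, κ ≤ (univ.filter fun i => part i = a).card ∧
        (univ.filter fun i => part i = a).card ≤ κ + 1) ∧
      ∀ t s : ℕ, (t : ℝ) ≤ 1 / (A * (4 * 10 ^ 8 * R ^ 2)) * ((R * κ + e : ℕ) : ℝ) →
        Nonempty (PartRefutation G part t s) →
        (n : ℝ) ^ (1 / (A * (4 * 10 ^ 8 * R ^ 2)) * ((R * κ + e : ℕ) : ℝ)) ≤ s := by
    refine ⟨G, fun m hm => hG.mono ?_, part, hpart, fun t s ht hRf => hbound t s ?_ hRf⟩
    · rw [← hθ] at hm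
      omega
    · have h1 : ((R * κ + e : ℕ) : ℝ) ≤ 200000000 * R ^ 2 * lam := by
        rw [← hkκ]; exact_mod_cast hlamk
      have hA' : (0 : ℝ) < A := by exact_mod_cast hA0
      have hR' : (0 : ℝ) < R := by exact_mod_cast hR0
      have hR2 : (0 : ℝ) < (R : ℝ) ^ 2 := by positivity
      have h4 : (t : ℝ) ≤ ((R * κ + e : ℕ) : ℝ) / (A * (4 * 10 ^ 8 * R ^ 2)) := by
        rw [div_eq_mul_inv, mul_comm, inv_eq_one_div]
        exact ht
      rw [le_div_iff₀ (by positivity)] at h4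
      have h5 : (t : ℝ) * A * 2 ≤ lam := by
        have h6 : (t : ℝ) * A * 2 * (200000000 * (R : ℝ) ^ 2) ≤
            lam * (200000000 * (R : ℝ) ^ 2) := by nlinarith
        exact le_of_mul_le_mul_right h6 (by positivity)
      have h6 : t * A * 2 ≤ lam := by exact_mod_cast h5
      rw [hA] at h6
      nlinarith
  rw [← hkκ] at hmain
  exact hmain

end CliqueRP
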