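import Pool.Agent.Lib.MP_678664_lc_CP.Defs

/-!
# Several parties: gadgets and dags, definitions used in the proof

There are `r` parties; the party `a` holds a point `x a`. For every pair `a < b` of parties there
is a family of gadgets `g a b`, one for every coordinate.
-/

set_option autoImplicit false

open Finset CliqueCP

namespace CliqueRP

/-- The gadgets applied to a tuple of points. -/
def gval {q n r : ℕ} (g : Fin r → Fin r → Fin q → Fin n → Fin n → Bool) (x : Fin r → Pt q n) :
    Fin r → Fin r → Fin q → Bool :=
  fun a b i => g a b i (x a i) (x b i)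

/-- The gadget property: among `M` points of each party, pairwise different at every coordinate
of `C`, one can choose one point for each party such that all pairs of parties show any given
patterns on `C`. -/
def GadgetGood {q n r : ℕ} (g : Fin r → Fin r → Fin q → Fin n → Fin n → Bool) (M : ℕ) : Prop :=
  ∀ (C : Finset (Fin q)) (x : Fin r → Fin M → Pt q n) (ρ : Fin r → Fin r → Fin q → Bool),
    (∀ a, ∀ i ∈ C, Function.Injective fun c => x a c i) →
    ∃ c : Fin r → Fin M, ∀ a b, a < b → ∀ i ∈ C,
      gval g (fun a => x a (c a)) a b i = ρ a b i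

/-- A dag of the sets `{x | ∑ a, f v a (x a) < 0}` solving the search problem: find a violated
constraint; at a leaf at most `t` candidates remain. -/
structure RDag {q n m r : ℕ} (g : Fin r → Fin r → Fin q → Fin n → Fin n → Bool)
    (S : Fin m → (Fin r → Fin r → Fin q → Bool) → Prop) (t s : ℕ) where
  f : Fin s → Fin r → Pt q n → ℝ
  valid : ∀ v, (∃ P : Finset (Fin m), P.card ≤ t ∧
      ∀ x : Fin r → Pt q n, ∑ a, f v a (x a) < 0 → ∃ j ∈ P, ¬ S j (gval g x)) ∨
    ∃ u w, u < v ∧ w < v ∧ ∀ x : Fin r → Pt q n, ∑ a, f v a (x a) < 0 →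
      ∑ a, f u a (x a) < 0 ∨ ∑ a, f w a (x a) < 0
  root : ∃ v, ∀ x : Fin r → Pt q n, ∑ a, f v a (x a) < 0

end CliqueRP
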