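import Pool.Agent.Lib.MP_678664_lc_RP.Lift
import Pool.Agent.Lib.MP_678664_lc_CP.Explicit

/-! # The lifting theorem for expanding parity systems and several parties -/

set_option autoImplicit false

open Finset CliqueCP

namespace CliqueRP

/-- The parity constraint `j` holds for all pairs of parties. -/
def PSat {q m r : ℕ} (φ : Fin m → Fin 5 → Fin q) (rhs : Fin m → Bool) (j : Fin m)
    (z : Fin r → Fin r → Fin q → Bool) : Prop :=
  ∀ a b, a < b → XSat φ rhs j (z a b)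

theorem lifting_explicit (q lam p M r : ℕ) (hp1 : 1 ≤ p)
    (hM : M * q * (2 * (4 * (q + 1)) ^ (3 * (r * lam) + 2)) < 2 ^ p)
    (g : Fin r → Fin r → Fin q → Fin (2 ^ (4 * p)) → Fin (2 ^ (4 * p)) → Bool)
    (hg : GadgetGood g M)
    (m : ℕ) (φ : Fin m → Fin 5 → Fin q) (rhs : Fin m → Bool) (R t s : ℕ)
    (hφ : Expands φ R) (hR : 2 * (2 * (r * lam) + 5 * t) ≤ R) (hR2 : 2 ≤ R)
    (hT : Nonempty (RDag g (PSat φ rhs) t s)) :
    2 ^ (p * lam) ≤ 2 * (4 * q + 5) ^ (6 * (r * lam) + 3) * s := by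
  classical
  obtain ⟨T⟩ := hT
  have hN : 2 ≤ 2 ^ p := by
    calc 2 = 2 ^ 1 := by norm_num
      _ ≤ 2 ^ p := Nat.pow_le_pow_right (by norm_num) hp1
  have h := lifting_abs (N := 2 ^ p) (lam := lam) (L := 6 * (r * lam) + 3)
    (w := 2 * (r * lam) + 5 * t) hN
    (by rw [← pow_mul]; ring_nf) (le_refl _) hM hg (PSat φ rhs) (xvars φ)
    (fun j => by
      unfold xvars
      calc (univ.image (φ j)).card ≤ (univ : Finset (Fin 5)).card := card_image_le
        _ = 5 := by simp)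
    (fun j z z' hz h a b hab => xsat_congr φ rhs j _ _ (hz a b hab) (h a b hab))
    (fun K ρ => ∀ a b, Cons φ rhs R K (ρ a b))
    ⟨fun _ _ _ => false, fun _ _ => cons_empty φ rhs R hφ _⟩
    (fun K K' ρ h hK a b => (h a b).mono hK)
    (fun K K' ρ h hK hKc => by
      choose ρ' h1 h2 using fun a b => (h a b).extendTo hφ hK (by omega)
      exact ⟨ρ', h1, h2⟩)
    (fun K ρ j h hj a b _ => (h a b).sat hR2 j hj) (by omega) (by omega) T
  rw [card_step] at h
  have h2 : ((2 ^ (p * lam) : ℕ) : ℝ) ≤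
      ((2 * (4 * q + 5) ^ (6 * (r * lam) + 3) * s : ℕ) : ℝ) := by
    push_cast at h ⊢
    rw [pow_mul]
    calc ((2 : ℝ) ^ p) ^ lam ≤ 2 * (1 + 2 * (2 * (q : ℝ) + 2)) ^ (6 * (r * lam) + 3) * s := h
      _ = 2 * (4 * (q : ℝ) + 5) ^ (6 * (r * lam) + 3) * s := by ring_nf
  exact_mod_cast h2

end CliqueRP
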