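import Pool.Agent.Lib.MP_678664_lc_CP.GapEncode

/-!
# Split lines with several sides: definitions

The positions are divided into `r` parts.
-/

set_option autoImplicit false

open Finset CliqueGap

namespace CliqueRP

/-- A threshold line which is split with respect to the partition `P` of the positions into `r`
parts: the condition `0 ≤ ∑ a, f a v`, where `f a` is an arbitrary real function of the vertices
at the positions in the part `a`. -/
structure PartLine {k r : ℕ} (n : ℕ) (P : Fin k → Fin r) where
  f : Fin r → (Fin k → Fin n) → ℝ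
  f_dep : ∀ a, ∀ v w : Fin k → Fin n, (∀ i, P i = a → v i = w i) → f a v = f a w

/-- The line holds at the tuple `v` of vertices. -/
def PartLine.Holds {k n r : ℕ} {P : Fin k → Fin r} (I : PartLine n P) (v : Fin k → Fin n) :
    Prop := 0 ≤ ∑ a, I.f a v

/-- A refutation with `s` lines of this kind: every line is implied by the adjacency of the
vertices at some `t` positions, or is implied by two earlier lines; some line has no solution. -/
structure PartRefutation {k n r : ℕ} (G : SimpleGraph (Fin n)) (P : Fin k → Fin r)
    (t s : ℕ) where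
  line : Fin s → PartLine n P
  valid : ∀ m, (∃ Q : Finset (Fin k), Q.card ≤ t ∧
      ∀ v, (∀ i ∈ Q, ∀ j ∈ Q, i ≠ j → G.Adj (v i) (v j)) → (line m).Holds v) ∨
    ∃ a b, a < m ∧ b < m ∧ ∀ v, (line a).Holds v → (line b).Holds v → (line m).Holds v
  contra : ∃ m, ∀ v, ¬ (line m).Holds v

/-- A linear inequality as a split line; the constant is put into the part `a₀`. -/
noncomputable def partOf {k n r B : ℕ} (I : Ineq k B) (enc : Fin n → Fin B → Bool)
    (P : Fin k → Fin r) (a₀ : Fin r) : PartLine n P where
  f a v := (∑ i, if P i = a then (∑ l, if enc (v i) l = true then I.coef i l else 0) else 0) -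
    if a = a₀ then I.rhs else 0
  f_dep := by
    intro a v w h
    congr 1
    refine sum_congr rfl fun i _ => ?_
    split_ifs with hi
    · rw [h i hi]
    · rfl

theorem partOf_holds {k n r B : ℕ} (I : Ineq k B) (enc : Fin n → Fin B → Bool)
    (P : Fin k → Fin r) (a₀ : Fin r) (v : Fin k → Fin n) :
    (partOf I enc P a₀).Holds v ↔ I.Holds (fun i => enc (v i)) := by
  classical
  unfold PartLine.Holds Ineq.Holds partOf
  simp only
  rw [sum_sub_distrib, sum_comm]
  have h1 : ∀ i : Fin k, (∑ a : Fin r, if P i = a then
      (∑ l, if enc (v i) l = true then I.coef i l else 0) else 0) =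
      ∑ l, if enc (v i) l = true then I.coef i l else 0 := by
    intro i
    rw [sum_ite_eq]
    simp
  simp only [h1]
  rw [sum_ite_eq']
  simp

theorem toPart {n k t s B r : ℕ} {G : SimpleGraph (Fin n)} {enc : Fin n → Fin B → Bool}
    (R : Refutation G enc k t s) (P : Fin k → Fin r) (hr : 0 < r) :
    Nonempty (PartRefutation G P t s) := by
  refine ⟨⟨fun m => partOf (R.line m) enc P ⟨0, hr⟩, ?_, ?_⟩⟩
  · intro m
    rcases R.valid m with ⟨Q, hQ, h⟩ | ⟨a, b, ha, hb, hab⟩
    · left
      refine ⟨Q, hQ, fun v hv => ?_⟩
      rw [partOf_holds]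
      exact h _ ⟨v, fun i _ => rfl, hv⟩
    · right
      refine ⟨a, b, ha, hb, fun v => ?_⟩
      simp only [partOf_holds]
      exact hab _
  · obtain ⟨m, hm⟩ := R.contra
    refine ⟨m, fun v => ?_⟩
    rw [partOf_holds]
    exact hm _

end CliqueRP
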