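import Pool.Agent.Lib.MP_678664_lc_RP.Defs
import Pool.Agent.Lib.MP_678664_lc_CP.ModD

/-! # Existence of good gadgets for several parties (counting) -/

set_option autoImplicit false

open Finset CliqueCP

namespace CliqueRP

/-- Tuples of indices, two of which agree at one party at most. -/
def tup (r M' : ℕ) (z : Fin M' × Fin M') (a : Fin r) : Fin (r * M') :=
  ⟨z.1.1 + a.1 * z.2.1, by
    have h1 := z.1.2
    have h2 := z.2.2
    have h3 := a.2
    calc z.1.1 + a.1 * z.2.1 ≤ z.1.1 + a.1 * M' := by gcongr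
      _ < M' + a.1 * M' := by omega
      _ = (a.1 + 1) * M' := by ring
      _ ≤ r * M' := Nat.mul_le_mul_right _ h3⟩

theorem tup_inj {r M' : ℕ} {z z' : Fin M' × Fin M'} {a b : Fin r} (hab : a < b)
    (ha : tup r M' z a = tup r M' z' a) (hb : tup r M' z b = tup r M' z' b) : z = z' := by
  have h1 : z.1.1 + a.1 * z.2.1 = z'.1.1 + a.1 * z'.2.1 := congrArg Fin.val ha
  have h2 : z.1.1 + b.1 * z.2.1 = z'.1.1 + b.1 * z'.2.1 := congrArg Fin.val hb
  have hab' : a.1 < b.1 := hab
  have h3 : z.2.1 = z'.2.1 := by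
    have e1 : ((z.1.1 : ℤ) + a.1 * z.2.1) = z'.1.1 + a.1 * z'.2.1 := by exact_mod_cast h1
    have e2 : ((z.1.1 : ℤ) + b.1 * z.2.1) = z'.1.1 + b.1 * z'.2.1 := by exact_mod_cast h2
    have e3 : ((b.1 : ℤ) - a.1) * ((z.2.1 : ℤ) - z'.2.1) = 0 := by linarith
    have e4 : ((b.1 : ℤ) - a.1) ≠ 0 := by
      have : (a.1 : ℤ) < b.1 := by exact_mod_cast hab'
      linarith
    have e5 : ((z.2.1 : ℤ) - z'.2.1) = 0 := (mul_eq_zero.mp e3).resolve_left e4
    have e6 : (z.2.1 : ℤ) = z'.2.1 := by linarith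
    exact_mod_cast e6
  have h4 : z.1.1 = z'.1.1 := by
    rw [h3] at h1
    omega
  exact Prod.ext (Fin.ext h4) (Fin.ext h3)

open CliqueCP.ModD in
theorem exists_gadget (r q p : ℕ) :
    ∃ g : Fin r → Fin r → Fin q → Fin (2 ^ (4 * p)) → Fin (2 ^ (4 * p)) → Bool,
      GadgetGood g (r * (2 ^ (r * r * q) * (4 * p * q * (r * r) + r * r * q + q + 1))) := by
  classical
  by_contra hcon
  push Not at hcon
  set n := 2 ^ (4 * p) with hn
  set L := 4 * p * q * (r * r) + r * r * q + q + 1 with hL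
  set M' := 2 ^ (r * r * q) * L with hM'
  set M := r * M' with hM
  have hM'pos : 0 < M' := Nat.mul_pos (Nat.two_pow_pos _) (by omega)
  -- index type of the gadget tables
  let I := (Fin r × Fin r × Fin q) × Fin n × Fin n
  let cur : (I → Bool) → (Fin r → Fin r → Fin q → Fin n → Fin n → Bool) :=
    fun g a b i u v => g ((a, b, i), u, v)
  let K := Finset (Fin q) × (Fin r → Fin M → Pt q n) × (Fin r → Fin r → Fin q → Bool)
  let ok : K → Prop := fun k => ∀ a, ∀ i ∈ k.1, Function.Injective fun c => k.2.1 a c i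
  let Bad : K → Finset (I → Bool) := fun k =>
    univ.filter fun g => ok k ∧ ∀ c : Fin r → Fin M, ∃ a b, a < b ∧ ∃ i ∈ k.1,
      g ((a, b, i), k.2.1 a (c a) i, k.2.1 b (c b) i) ≠ k.2.2 a b i
  have hcover : (univ : Finset (I → Bool)) ⊆ (univ : Finset K).biUnion Bad := by
    intro g _
    have h := hcon (cur g)
    unfold GadgetGood at h
    push Not at h
    obtain ⟨C, x, ρ, hx, hbad⟩ := h
    refine Finset.mem_biUnion.mpr ⟨(C, x, ρ), Finset.mem_univ _, ?_⟩
    exact Finset.mem_filter.mpr ⟨Finset.mem_univ _, hx, hbad⟩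
  have hone : ∀ k : K, (Bad k).card * 2 ^ (L * M') ≤ 2 ^ Fintype.card I := by
    intro k
    by_cases hk : ok k
    · let e : (Fin M' × Fin M') × {z : Fin r × Fin r × Fin q // z.1 < z.2.1 ∧ z.2.2 ∈ k.1} → I :=
        fun z => (z.2.1, k.2.1 z.2.1.1 (tup r M' z.1 z.2.1.1) z.2.1.2.2,
          k.2.1 z.2.1.2.1 (tup r M' z.1 z.2.1.2.1) z.2.1.2.2)
      have he : Function.Injective e := by
        rintro ⟨u, ⟨⟨a, b, i⟩, hab, hi⟩⟩ ⟨u', ⟨⟨a', b', i'⟩, hab', hi'⟩⟩ h
        have h0 : (a, b, i) = (a', b', i') := congrArg (fun z : I => z.1) h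
        simp only [Prod.mk.injEq] at h0
        obtain ⟨rfl, rfl, rfl⟩ := h0
        have h1 : k.2.1 a (tup r M' u a) i = k.2.1 a (tup r M' u' a) i :=
          congrArg (fun z : I => z.2.1) h
        have h2 : k.2.1 b (tup r M' u b) i = k.2.1 b (tup r M' u' b) i :=
          congrArg (fun z : I => z.2.2) h
        have ha := hk a i hi h1
        have hb := hk b i hi h2
        have := tup_inj hab ha hb
        subst this
        rfl
      have h1 := card_bad e he (fun z => k.2.2 z.1.1 z.1.2.1 z.1.2.2) (Bad k) (by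
        rintro g hg u
        obtain ⟨a, b, hab, i, hi, hne⟩ := (Finset.mem_filter.mp hg).2.2 (tup r M' u)
        exact ⟨⟨(a, b, i), hab, hi⟩, hne⟩)
      rw [Fintype.card_prod, Fintype.card_fin] at h1
      set c := Fintype.card {z : Fin r × Fin r × Fin q // z.1 < z.2.1 ∧ z.2.2 ∈ k.1} with hcdef
      have hc : c ≤ r * r * q := by
        refine (Fintype.card_subtype_le _).trans (le_of_eq ?_)
        simp only [Fintype.card_prod, Fintype.card_fin]
        ring
      have h2 := pow_ineq (r * r * q) c L hc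
      rw [← hM'] at h2
      have hpos : 0 < 2 ^ (M' * M' * c) := Nat.two_pow_pos _
      refine Nat.le_of_mul_le_mul_right ?_ hpos
      calc (Bad k).card * 2 ^ (L * M') * 2 ^ (M' * M' * c)
          = ((Bad k).card * 2 ^ (M' * M' * c)) * 2 ^ (L * M') := by ring
        _ ≤ ((2 ^ c - 1) ^ (M' * M') * 2 ^ Fintype.card I) * 2 ^ (L * M') :=
            Nat.mul_le_mul_right _ h1
        _ = ((2 ^ c - 1) ^ (M' * M') * 2 ^ (L * M')) * 2 ^ Fintype.card I := by ring
        _ ≤ 2 ^ (M' * M' * c) * 2 ^ Fintype.card I := Nat.mul_le_mul_right _ h2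
        _ = 2 ^ Fintype.card I * 2 ^ (M' * M' * c) := by ring
    · have : Bad k = ∅ := by
        apply Finset.filter_eq_empty_iff.mpr
        intro g _ hg
        exact hk hg.1
      rw [this]
      simp
  have hcardK : Fintype.card K = 2 ^ (q + r * r * q + 4 * p * q * (r * r) * M') := by
    simp only [K, Fintype.card_prod, Fintype.card_finset, Fintype.card_fun, Fintype.card_fin,
      Fintype.card_bool, Pt, hn]
    rw [← pow_mul, ← pow_mul, ← pow_mul, ← pow_mul, ← pow_mul, ← pow_add, ← pow_add]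
    congr 1
    rw [hM]
    ring
  have hsum : 2 ^ Fintype.card I * 2 ^ (L * M') ≤
      2 ^ (q + r * r * q + 4 * p * q * (r * r) * M') * 2 ^ Fintype.card I := by
    have h1 : Fintype.card (I → Bool) ≤ ∑ k : K, (Bad k).card := by
      calc Fintype.card (I → Bool) = (univ : Finset (I → Bool)).card := (Finset.card_univ).symm
        _ ≤ ((univ : Finset K).biUnion Bad).card := Finset.card_le_card hcover
        _ ≤ ∑ k : K, (Bad k).card := Finset.card_biUnion_le
    rw [Fintype.card_fun, Fintype.card_bool] at h1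
    calc 2 ^ Fintype.card I * 2 ^ (L * M') ≤ (∑ k : K, (Bad k).card) * 2 ^ (L * M') :=
          Nat.mul_le_mul_right _ h1
      _ = ∑ k : K, (Bad k).card * 2 ^ (L * M') := Finset.sum_mul _ _ _
      _ ≤ ∑ k : K, 2 ^ Fintype.card I := Finset.sum_le_sum fun k _ => hone k
      _ = 2 ^ (q + r * r * q + 4 * p * q * (r * r) * M') * 2 ^ Fintype.card I := by
          rw [Finset.sum_const, Finset.card_univ, hcardK, smul_eq_mul]
  have h5 : 2 ^ (L * M') ≤ 2 ^ (q + r * r * q + 4 * p * q * (r * r) * M') := by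
    refine Nat.le_of_mul_le_mul_left ?_ (Nat.two_pow_pos (Fintype.card I))
    rw [mul_comm (2 ^ Fintype.card I) (2 ^ (q + r * r * q + 4 * p * q * (r * r) * M'))]
    exact hsum
  have h6 : L * M' ≤ q + r * r * q + 4 * p * q * (r * r) * M' :=
    (Nat.pow_le_pow_iff_right (by norm_num)).mp h5
  have h7 : L * M' = 4 * p * q * (r * r) * M' + (r * r * q) * M' + q * M' + M' := by
    rw [hL]; ring
  have h8 : q ≤ q * M' := Nat.le_mul_of_pos_right _ hM'pos
  have h9 : r * r * q ≤ (r * r * q) * M' := Nat.le_mul_of_pos_right _ hM'pos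
  omega

end CliqueRP
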