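import Pool.Agent.Lib.MP_678664_lc_CP.GapGraph
import Pool.Agent.Lib.MP_678664_lc_RP.Explicit
import Pool.Agent.Lib.MP_678664_lc_RP.Formula

/-!
# The graph of a lifted parity system, for several parties

The positions are the pairs of a party and a group of constraints, and some universal ones.
-/

set_option autoImplicit false

open Finset CliqueCP

namespace CliqueRP

/-- Positions: `inl (a, i)` is the part of the party `a` and the group `i`, `inr u` the `u`-th
universal vertex. -/
abbrev Pos (r K e : ℕ) := (Fin r × Fin K) ⊕ Fin e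

/-- Vertices. -/
abbrev Vtx (r K ℓ n e : ℕ) := (Fin r × Fin K × (Fin ℓ → Fin 5 → Fin n)) ⊕ Fin e

/-- The part of a vertex. -/
def vpos {r K ℓ n e : ℕ} : Vtx r K ℓ n e → Pos r K e
  | Sum.inl (a, i, _) => Sum.inl (a, i)
  | Sum.inr u => Sum.inr u

/-- Whether two vertices in different parts are compatible: they come from one tuple of points
which satisfies the common constraints for the two parties. -/
def Compat {q m r K ℓ n e : ℕ} (φ : Fin m → Fin 5 → Fin q) (ψ : Fin K → Fin ℓ → Fin m)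
    (rhs : Fin m → Bool) (g : Fin r → Fin r → Fin q → Fin n → Fin n → Bool) :
    Vtx r K ℓ n e → Vtx r K ℓ n e → Prop
  | Sum.inl (a, i, u), Sum.inl (b, i', v) =>
      ∃ x : Fin r → Pt q n, u = CliqueGap.grp φ ψ i (x a) ∧ v = CliqueGap.grp φ ψ i' (x b) ∧
        ∀ c c', ψ i c = ψ i' c' → (a < b → XSat φ rhs (ψ i c) (gval g x a b)) ∧
          (b < a → XSat φ rhs (ψ i c) (gval g x b a))
  | Sum.inr _, _ => True
  | Sum.inl _, Sum.inr _ => True

theorem Compat.symm {q m r K ℓ n e : ℕ} {φ : Fin m → Fin 5 → Fin q} {ψ : Fin K → Fin ℓ → Fin m}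
    {rhs : Fin m → Bool} {g : Fin r → Fin r → Fin q → Fin n → Fin n → Bool}
    {u v : Vtx r K ℓ n e} (h : Compat φ ψ rhs g u v) : Compat φ ψ rhs g v u := by
  rcases u with ⟨a, i, u⟩ | u <;> rcases v with ⟨b, i', v⟩ | v
  · obtain ⟨x, h1, h2, h3⟩ := h
    refine ⟨x, h2, h1, fun c' c hcc => ?_⟩
    rw [hcc]
    exact ⟨(h3 c c' hcc.symm).2, (h3 c c' hcc.symm).1⟩
  · trivial
  · trivial
  · trivial

/-- The graph before padding. -/
def liftGraph {q m r K ℓ n : ℕ} (e : ℕ) (φ : Fin m → Fin 5 → Fin q) (ψ : Fin K → Fin ℓ → Fin m)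
    (rhs : Fin m → Bool) (g : Fin r → Fin r → Fin q → Fin n → Fin n → Bool) :
    SimpleGraph (Vtx r K ℓ n e) where
  Adj u v := vpos u ≠ vpos v ∧ Compat φ ψ rhs g u v
  symm := ⟨fun _ _ h => ⟨h.1.symm, h.2.symm⟩⟩
  loopless := ⟨fun _ h => h.1 rfl⟩

/-- The graph has no large clique. -/
theorem liftGraph_cliqueFree {q m r K ℓ n e θ A B : ℕ} (hn : 0 < n) (hr : 0 < r) (hθ : 1 ≤ θ)
    (φ : Fin m → Fin 5 → Fin q)
    (ψ : Fin K → Fin ℓ → Fin m) (rhs : Fin m → Bool)
    (hun : ∀ (z : Fin q → Bool) (T : Finset (Fin m)), (∀ j ∈ T, XSat φ rhs j z) → T.card < A)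
    (hcov : ∀ I : Finset (Fin K), θ ≤ I.card →
      B ≤ (I.biUnion fun i => univ.image (ψ i)).card)
    (hAB : A + m ≤ 2 * B)
    (g : Fin r → Fin r → Fin q → Fin n → Fin n → Bool) :
    (liftGraph e φ ψ rhs g).CliqueFree (K + r * θ + e) := by
  classical
  intro S hS
  have hcl := hS.isClique
  have hcard := hS.card_eq
  -- the groups of the parties
  let J : Fin r → Finset (Fin K) := fun a => univ.filter fun i => ∃ u, Sum.inl (a, i, u) ∈ S
  have hinj : Set.InjOn (vpos (r := r) (K := K) (ℓ := ℓ) (n := n) (e := e))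
      (S : Set (Vtx r K ℓ n e)) := by
    intro u hu v hv huv
    by_contra hne
    exact (hcl hu hv hne).1 huv
  have hle : S.card ≤ (∑ a, (J a).card) + e := by
    have h1 : S.image vpos ⊆ (univ.biUnion fun a => (J a).image fun i => Sum.inl (a, i)) ∪
        (univ : Finset (Fin e)).image Sum.inr := by
      intro P hP
      obtain ⟨v, hv, rfl⟩ := mem_image.1 hP
      rcases v with ⟨a, i, u⟩ | u
      · refine mem_union_left _ (mem_biUnion.2 ⟨a, mem_univ _, mem_image_of_mem _ ?_⟩)
        exact mem_filter.2 ⟨mem_univ _, u, hv⟩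
      · exact mem_union_right _ (mem_image_of_mem _ (mem_univ u))
    rw [← Finset.card_image_of_injOn hinj]
    refine (Finset.card_le_card h1).trans ?_
    refine (Finset.card_union_le _ _).trans ?_
    refine Nat.add_le_add (Finset.card_biUnion_le.trans
      (sum_le_sum fun a _ => Finset.card_image_le)) ?_
    exact Finset.card_image_le.trans (by simp)
  have hJK : ∀ b, (J b).card ≤ K := by
    intro b
    have := Finset.card_le_univ (J b)
    rwa [Fintype.card_fin] at this
  obtain ⟨a, b, hab, hta, htb⟩ : ∃ a b, a < b ∧ θ ≤ (J a).card ∧ θ ≤ (J b).card := by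
    by_contra hno
    push Not at hno
    have hT : (univ.filter fun a => θ ≤ (J a).card).card ≤ 1 := by
      rw [card_le_one]
      intro a ha b hb
      have ha' := (mem_filter.1 ha).2
      have hb' := (mem_filter.1 hb).2
      rcases lt_trichotomy a b with h | h | h
      · exact absurd hb' (not_le.2 (hno a b h ha'))
      · exact h
      · exact absurd ha' (not_le.2 (hno b a h hb'))
    have hs : ∑ a, (J a).card ≤ K + r * (θ - 1) := by
      calc ∑ a, (J a).card ≤ ∑ a, ((if θ ≤ (J a).card then K else 0) + (θ - 1)) := by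
            refine sum_le_sum fun a _ => ?_
            have := hJK a
            split_ifs <;> omega
        _ = (univ.filter fun a => θ ≤ (J a).card).card * K + r * (θ - 1) := by
            rw [sum_add_distrib, ← sum_filter, sum_const, sum_const, card_univ, Fintype.card_fin,
              smul_eq_mul, smul_eq_mul]
        _ ≤ 1 * K + r * (θ - 1) := by gcongr
        _ = K + r * (θ - 1) := by rw [one_mul]
    have h2 : r * (θ - 1) < r * θ := Nat.mul_lt_mul_of_pos_left (by omega) hr
    omega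
  -- values on the two sides
  let val : Fin r → Fin K → Fin ℓ → Fin 5 → Fin n := fun a i =>
    if h : ∃ u, Sum.inl (a, i, u) ∈ S then h.choose else fun _ _ => ⟨0, hn⟩
  have hval : ∀ a, ∀ i ∈ J a, (Sum.inl (a, i, val a i) : Vtx r K ℓ n e) ∈ S := by
    intro a i hi
    have hex := (mem_filter.1 hi).2
    simp only [val, dif_pos hex]
    exact hex.choose_spec
  have hRC : ∀ i ∈ J a, ∀ i' ∈ J b,
      ∃ x : Fin r → Pt q n, val a i = CliqueGap.grp φ ψ i (x a) ∧
        val b i' = CliqueGap.grp φ ψ i' (x b) ∧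
        ∀ c c', ψ i c = ψ i' c' → (a < b → XSat φ rhs (ψ i c) (gval g x a b)) ∧
          (b < a → XSat φ rhs (ψ i c) (gval g x b a)) := by
    intro i hi i' hi'
    have hne : (Sum.inl (a, i, val a i) : Vtx r K ℓ n e) ≠ Sum.inl (b, i', val b i') := by
      simp [hab.ne]
    exact (hcl (hval a i hi) (hval b i' hi') hne).2
  obtain ⟨i₁, hi₁⟩ : (J a).Nonempty := Finset.card_pos.1 (by omega)
  obtain ⟨i₂, hi₂⟩ : (J b).Nonempty := Finset.card_pos.1 (by omega)
  have hsame : ∀ c, ∀ i ∈ J c, ∀ i' ∈ J c, i ≠ i' →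
      ∃ x : Pt q n, val c i = CliqueGap.grp φ ψ i x ∧ val c i' = CliqueGap.grp φ ψ i' x := by
    intro c i hi i' hi' hii
    have hne : (Sum.inl (c, i, val c i) : Vtx r K ℓ n e) ≠ Sum.inl (c, i', val c i') := by
      simp [hii]
    obtain ⟨x, h1, h2, -⟩ := (hcl (hval c i hi) (hval c i' hi') hne).2
    exact ⟨x c, h1, h2⟩
  have hrow : ∀ i ∈ J a, ∀ i' ∈ J a,
      ∃ x : Pt q n, val a i = CliqueGap.grp φ ψ i x ∧ val a i' = CliqueGap.grp φ ψ i' x := by
    intro i hi i' hi'
    by_cases hii : i = i'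
    · subst hii
      obtain ⟨x, hx, -, -⟩ := hRC i hi i₂ hi₂
      exact ⟨x a, hx, hx⟩
    · exact hsame a i hi i' hi' hii
  have hcol : ∀ i ∈ J b, ∀ i' ∈ J b,
      ∃ y : Pt q n, val b i = CliqueGap.grp φ ψ i y ∧ val b i' = CliqueGap.grp φ ψ i' y := by
    intro i hi i' hi'
    by_cases hii : i = i'
    · subst hii
      obtain ⟨x, -, hy, -⟩ := hRC i₁ hi₁ i hi
      exact ⟨x b, hy, hy⟩
    · exact hsame b i hi i' hi' hii
  obtain ⟨x, hx⟩ := CliqueGap.exists_point hn φ ψ (J a) (val a) hrow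
  obtain ⟨y, hy⟩ := CliqueGap.exists_point hn φ ψ (J b) (val b) hcol
  -- the constraints covered by both sides are satisfied
  let C : Fin r → Finset (Fin m) := fun c => (J c).biUnion fun i => univ.image (ψ i)
  have hC1 : B ≤ (C a).card := hcov _ hta
  have hC2 : B ≤ (C b).card := hcov _ htb
  have hsat : ∀ j ∈ C a ∩ C b, XSat φ rhs j (CliqueCP.gval (g a b) x y) := by
    intro j hj
    rw [mem_inter] at hj
    obtain ⟨i, hi, hj1⟩ := mem_biUnion.1 hj.1
    obtain ⟨i', hi', hj2⟩ := mem_biUnion.1 hj.2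
    obtain ⟨c, -, hc⟩ := mem_image.1 hj1
    obtain ⟨c', -, hc'⟩ := mem_image.1 hj2
    obtain ⟨x', hx', hy', hs⟩ := hRC i hi i' hi'
    have hcc : ψ i c = ψ i' c' := by rw [hc, hc']
    have h1 : XSat φ rhs (ψ i c) (CliqueCP.gval (g a b) (x' a) (x' b)) := (hs c c' hcc).1 hab
    have h2 := CliqueGap.xsat_congr_grp φ ψ rhs (g a b) hcc (x' := x) (y' := y)
      (by rw [← hx', ← hx i hi]) (by rw [← hy', ← hy i' hi']) h1
    rwa [hc] at h2
  have hlt := hun _ _ hsat
  have hun2 : (C a ∪ C b).card ≤ m := by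
    have := Finset.card_le_univ (C a ∪ C b)
    rwa [Fintype.card_fin] at this
  have hie := Finset.card_union_add_card_inter (C a) (C b)
  omega

/-- The vertex selected by a tuple of points at a position. -/
def selVtx {q m r K ℓ n e : ℕ} (φ : Fin m → Fin 5 → Fin q) (ψ : Fin K → Fin ℓ → Fin m)
    (x : Fin r → Pt q n) : Pos r K e → Vtx r K ℓ n e
  | Sum.inl (a, i) => Sum.inl (a, i, CliqueGap.grp φ ψ i (x a))
  | Sum.inr u => Sum.inr u

theorem vpos_selVtx {q m r K ℓ n e : ℕ} (φ : Fin m → Fin 5 → Fin q) (ψ : Fin K → Fin ℓ → Fin m)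
    (x : Fin r → Pt q n) (P : Pos r K e) : vpos (selVtx φ ψ x P) = P := by
  rcases P with ⟨b, j⟩ | u <;> rfl

/-- The constraints of a position. -/
def posCon {m r K ℓ e : ℕ} (ψ : Fin K → Fin ℓ → Fin m) : Pos r K e → Finset (Fin m)
  | Sum.inl (_, i) => univ.image (ψ i)
  | Sum.inr _ => ∅

theorem posCon_card {m r K ℓ e : ℕ} (ψ : Fin K → Fin ℓ → Fin m) (P : Pos r K e) :
    (posCon ψ P).card ≤ ℓ := by
  rcases P with ⟨b, j⟩ | u
  · exact Finset.card_image_le.trans (by simp)
  · exact Nat.zero_le _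

/-- Two selected vertices at different positions are adjacent unless a constraint of the first
position is violated. -/
theorem adj_selVtx {q m r K ℓ n e : ℕ} (φ : Fin m → Fin 5 → Fin q) (ψ : Fin K → Fin ℓ → Fin m)
    (rhs : Fin m → Bool) (g : Fin r → Fin r → Fin q → Fin n → Fin n → Bool)
    (x : Fin r → Pt q n) {P Q : Pos r K e} (hPQ : P ≠ Q)
    (h : ∀ j ∈ posCon ψ P, PSat φ rhs j (gval g x)) :
    (liftGraph e φ ψ rhs g).Adj (selVtx φ ψ x P) (selVtx φ ψ x Q) := by
  refine ⟨by rwa [vpos_selVtx, vpos_selVtx], ?_⟩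
  rcases P with ⟨a, i⟩ | u <;> rcases Q with ⟨b, i'⟩ | v
  · refine ⟨x, rfl, rfl, fun c c' _ => ?_⟩
    have hj := h (ψ i c) (mem_image_of_mem _ (mem_univ _))
    exact ⟨fun hab => hj a b hab, fun hba => hj b a hba⟩
  · trivial
  · trivial
  · trivial

/-- The tuple of vertices given by a tuple of points. -/
def selTup {q m r K ℓ n e N k : ℕ} (φ : Fin m → Fin 5 → Fin q) (ψ : Fin K → Fin ℓ → Fin m)
    (π : Fin k ≃ Pos r K e) (ι : Vtx r K ℓ n e ↪ Fin N) (x : Fin r → Pt q n) : Fin k → Fin N :=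
  fun i => ι (selVtx φ ψ x (π i))

/-- The party of a position; the universal positions belong to the party `a₀`. -/
def party {r K e : ℕ} (a₀ : Fin r) : Pos r K e → Fin r
  | Sum.inl (a, _) => a
  | Sum.inr _ => a₀

theorem selTup_party {q m r K ℓ n e N k : ℕ} (φ : Fin m → Fin 5 → Fin q)
    (ψ : Fin K → Fin ℓ → Fin m) (π : Fin k ≃ Pos r K e) (ι : Vtx r K ℓ n e ↪ Fin N)
    (a₀ a : Fin r) (x x' : Fin r → Pt q n) (hx : x a = x' a) (i : Fin k)
    (hi : party a₀ (π i) = a) : selTup φ ψ π ι x i = selTup φ ψ π ι x' i := by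
  unfold selTup
  rcases hp : π i with ⟨b, j⟩ | u
  · rw [hp] at hi
    have hb : b = a := hi
    subst hb
    simp only [selVtx, hx]
  · rfl

/-- The reduction. -/
theorem graph_reduction {q m r K ℓ n e N θ A B : ℕ} (hn : 0 < n) (hr : 0 < r) (hθ : 1 ≤ θ)
    (hK : 0 < K) (hN : r * K * n ^ (5 * ℓ) + e ≤ N)
    (φ : Fin m → Fin 5 → Fin q)
    (ψ : Fin K → Fin ℓ → Fin m) (rhs : Fin m → Bool)
    (hun : ∀ (z : Fin q → Bool) (T : Finset (Fin m)), (∀ j ∈ T, XSat φ rhs j z) → T.card < A)
    (hcov : ∀ I : Finset (Fin K), θ ≤ I.card →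
      B ≤ (I.biUnion fun i => univ.image (ψ i)).card)
    (hAB : A + m ≤ 2 * B)
    (g : Fin r → Fin r → Fin q → Fin n → Fin n → Bool) :
    ∃ G : SimpleGraph (Fin N), G.CliqueFree (K + r * θ + e) ∧
      ∃ P : Fin (r * K + e) → Fin r, (∀ a, K ≤ (univ.filter fun i => P i = a).card) ∧
      ∀ t s : ℕ, Nonempty (PartRefutation G P t s) →
        Nonempty (RDag g (PSat φ rhs) (ℓ * t) s) := by
  classical
  have hcardV : Fintype.card (Vtx r K ℓ n e) = r * K * n ^ (5 * ℓ) + e := by
    simp [Fintype.card_sum, Fintype.card_prod, mul_assoc, pow_mul]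
  have hcardP : Fintype.card (Pos r K e) = r * K + e := by
    simp [Fintype.card_sum, Fintype.card_prod]
  obtain ⟨ι⟩ : Nonempty (Vtx r K ℓ n e ↪ Fin N) := by
    apply Function.Embedding.nonempty_of_card_le
    rw [hcardV, Fintype.card_fin]
    exact hN
  obtain ⟨π⟩ : Nonempty (Fin (r * K + e) ≃ Pos r K e) := by
    apply Fintype.card_eq.1
    rw [hcardP, Fintype.card_fin]
  have hne : Nonempty (Vtx r K ℓ n e) := ⟨Sum.inl (⟨0, hr⟩, ⟨0, hK⟩, fun _ _ => ⟨0, hn⟩)⟩
  have hfree : ((liftGraph e φ ψ rhs g).map ι).CliqueFree (K + r * θ + e) := by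
    rw [SimpleGraph.cliqueFree_map_iff]
    exact liftGraph_cliqueFree hn hr hθ φ ψ rhs hun hcov hAB g
  refine ⟨(liftGraph e φ ψ rhs g).map ι, hfree, fun i => party ⟨0, hr⟩ (π i), ?_, ?_⟩
  · intro a
    have hinj : Function.Injective fun j : Fin K => π.symm (Sum.inl (a, j)) := by
      intro j j' hjj
      have := π.symm.injective hjj
      simpa using this
    have hsub : (univ : Finset (Fin K)).image (fun j => π.symm (Sum.inl (a, j))) ⊆
        univ.filter fun i => party ⟨0, hr⟩ (π i) = a := by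
      intro i hi
      obtain ⟨j, -, rfl⟩ := mem_image.1 hi
      rw [mem_filter, Equiv.apply_symm_apply]
      exact ⟨mem_univ _, rfl⟩
    have h := card_le_card hsub
    rwa [card_image_of_injective _ hinj, card_univ, Fintype.card_fin] at h
  · rintro t s ⟨R⟩
    have hholds : ∀ (v : Fin s) (x : Fin r → Pt q n), (R.line v).Holds (selTup φ ψ π ι x) ↔
        ¬ (∑ a, (R.line v).f a (selTup φ ψ π ι fun _ => x a) < 0) := by
      intro v x
      unfold PartLine.Holds
      rw [not_lt]
      have h1 : ∀ a, (R.line v).f a (selTup φ ψ π ι x) =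
          (R.line v).f a (selTup φ ψ π ι fun _ => x a) := fun a =>
        (R.line v).f_dep a _ _ fun i hi => selTup_party φ ψ π ι ⟨0, hr⟩ a x (fun _ => x a) rfl i hi
      simp only [h1]
    refine ⟨⟨fun v a x => (R.line v).f a (selTup φ ψ π ι fun _ => x), ?_, ?_⟩⟩
    · intro v
      rcases R.valid v with ⟨Q, hQt, hQ⟩ | ⟨a, b, ha, hb, hab⟩
      · left
        refine ⟨Q.biUnion fun i => posCon ψ (π i), ?_, ?_⟩
        · calc (Q.biUnion fun i => posCon ψ (π i)).card ≤ Q.card * ℓ :=
                Finset.card_biUnion_le_card_mul _ _ _ fun i _ => posCon_card ψ (π i)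
            _ ≤ t * ℓ := Nat.mul_le_mul_right _ hQt
            _ = ℓ * t := mul_comm _ _
        · intro x hx
          have hnot : ¬ (R.line v).Holds (selTup φ ψ π ι x) := by
            rw [hholds]
            exact fun h => h hx
          by_contra hno
          push Not at hno
          apply hnot
          apply hQ
          intro i hi j hj hij
          unfold selTup
          rw [SimpleGraph.map_adj_apply]
          exact adj_selVtx φ ψ rhs g x (fun h => hij (π.injective h)) fun c hc =>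
            hno c (mem_biUnion.2 ⟨i, hi, hc⟩)
      · right
        refine ⟨a, b, ha, hb, fun x hx => ?_⟩
        by_contra hno
        push Not at hno
        have h1 : (R.line a).Holds (selTup φ ψ π ι x) := by
          rw [hholds]; exact not_lt.2 hno.1
        have h2 : (R.line b).Holds (selTup φ ψ π ι x) := by
          rw [hholds]; exact not_lt.2 hno.2
        have h3 := hab _ h1 h2
        rw [hholds] at h3
        exact h3 hx
    · obtain ⟨v, hv⟩ := R.contra
      refine ⟨v, fun x => ?_⟩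
      have := hv (selTup φ ψ π ι x)
      rw [hholds, not_not] at this
      exact this

end CliqueRP
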