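import Pool.Agent.Lib.MP_678664_lc_RP.Walk

/-! # The lifting theorem for several parties (abstract form) -/

set_option autoImplicit false

open Finset CliqueCP

namespace CliqueRP

theorem dense_empty {q n N : ℕ} (hN : 2 ≤ N) (hn : n = N ^ 4) (A : Finset (Pt q n))
    (hA : n ^ q ≤ 2 * A.card) : Dense N ∅ A := by
  intro i _ b
  have h1 := card_const (slice A i b) {i} (fun _ => b) (by
    intro x hx j hj
    rw [mem_singleton] at hj
    subst hj
    exact (mem_slice.mp hx).2)
  rw [card_singleton, pow_one] at h1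
  have h2 : (slice A i b).card * N ^ 4 ≤ 2 * A.card := by rw [← hn]; omega
  have h3 : N * 2 ≤ N ^ 4 := by
    calc N * 2 ≤ N * N ^ 3 := by
          apply Nat.mul_le_mul_left
          calc 2 ≤ 2 ^ 3 := by norm_num
            _ ≤ N ^ 3 := Nat.pow_le_pow_left hN 3
      _ = N ^ 4 := by ring
  have h4 : (slice A i b).card * (N * 2) ≤ (slice A i b).card * N ^ 4 :=
    Nat.mul_le_mul_left _ h3
  nlinarith

/-- Ground sets are large. -/
theorem gset_large {q n N lam L s : ℕ} (hn : n = N ^ 4) (hN : 2 ≤ N)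
    (hcon : 2 * (1 + 2 * (Fintype.card (Step q) : ℝ)) ^ L * s < (N : ℝ) ^ lam)
    (E : ℕ → Pt q n → ℝ) (v : ℕ) (hv : v ≤ s) :
    n ^ q ≤ 2 * (gset N L ((N : ℝ) ^ lam) E v).card := by
  set Λ : ℝ := (N : ℝ) ^ lam with hΛ
  set D : ℝ := (1 + 2 * (Fintype.card (Step q) : ℝ)) ^ L with hD
  have hNr : (1 : ℝ) ≤ N := by exact_mod_cast (by omega : 1 ≤ N)
  have hΛ0 : 0 < Λ := by rw [hΛ]; positivity
  have hD0 : 0 ≤ D := by rw [hD]; positivity
  have hn0 : 0 < n := by rw [hn]; positivity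
  have hnq : (0 : ℝ) < (n : ℝ) ^ q := by
    have : (0 : ℝ) < n := by exact_mod_cast hn0
    positivity
  have h1 := card_gset N L Λ E v
  rw [← hD] at h1
  have h2 : (v : ℝ) * (D * (n : ℝ) ^ q) ≤ s * (D * (n : ℝ) ^ q) := by
    have : (v : ℝ) ≤ s := by exact_mod_cast hv
    gcongr
  have h3 : (s : ℝ) * (D * (n : ℝ) ^ q) * 2 < Λ * (n : ℝ) ^ q := by
    calc (s : ℝ) * (D * (n : ℝ) ^ q) * 2 = (2 * D * s) * (n : ℝ) ^ q := by ring
      _ < _ := by gcongr
  have h4 : Λ * (n : ℝ) ^ q < Λ * (2 * (gset N L Λ E v).card) := by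
    nlinarith
  have h5 : (n : ℝ) ^ q < 2 * (gset N L Λ E v).card := lt_of_mul_lt_mul_left h4 hΛ0.le
  exact_mod_cast h5.le

theorem lifting_abs {q n N lam L M w m t s r : ℕ} (hN : 2 ≤ N) (hn : n = N ^ 4)
    (hL : 6 * (r * lam) + 3 ≤ L)
    (hM : M * q * (2 * (4 * (q + 1)) ^ (3 * (r * lam) + 2)) < N)
    {g : Fin r → Fin r → Fin q → Fin n → Fin n → Bool} (hg : GadgetGood g M)
    (S : Fin m → (Fin r → Fin r → Fin q → Bool) → Prop) (V : Fin m → Finset (Fin q))
    (hV : ∀ j, (V j).card ≤ 5)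
    (hS : ∀ j z z', (∀ a b, a < b → ∀ i ∈ V j, z a b i = z' a b i) → S j z → S j z')
    (H : Finset (Fin q) → (Fin r → Fin r → Fin q → Bool) → Prop) (H0 : ∃ ρ, H ∅ ρ)
    (Hmono : ∀ K K' ρ, H K ρ → K' ⊆ K → H K' ρ)
    (Hext : ∀ K K' ρ, H K ρ → K ⊆ K' → K'.card ≤ w →
      ∃ ρ' : Fin r → Fin r → Fin q → Bool,
        (∀ a b, ∀ i ∈ K, ρ' a b i = ρ a b i) ∧ H K' ρ')
    (Hsat : ∀ K ρ j, H K ρ → V j ⊆ K → S j ρ)
    (hw : 2 * (r * lam) ≤ w) (hw' : r * lam + 5 * t ≤ w) (T : RDag g S t s) :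
    (N : ℝ) ^ lam ≤ 2 * (1 + 2 * (Fintype.card (Step q) : ℝ)) ^ L * s := by
  classical
  by_contra hcon
  push Not at hcon
  have hlarge := fun (E : ℕ → Pt q n → ℝ) (v : ℕ) (hv : v ≤ s) =>
    gset_large (lam := lam) (L := L) hn hN hcon E v hv
  set Λ : ℝ := (N : ℝ) ^ lam with hΛ
  obtain ⟨F, hFv⟩ : ∃ F : Fin r → ℕ → Pt q n → ℝ, ∀ a (v : ℕ) (hv : v < s),
      F a v = T.f ⟨v, hv⟩ a :=
    ⟨fun a v => if hv : v < s then T.f ⟨v, hv⟩ a else 0, fun a v hv => by
      beta_reduce
      rw [dif_pos hv]⟩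
  have hFpos : 0 < 2 * (4 * (q + 1)) ^ (3 * (r * lam) + 2) := by positivity
  -- no node has a state
  have key : ∀ (v : ℕ) (hv : v < s),
      ¬ State N lam g H (T.f ⟨v, hv⟩) (fun a => gset N L Λ (F a) v) := by
    intro v
    induction v using Nat.strong_induction_on with
    | _ v ih =>
      rintro hv ⟨K, A, ρ, hA, hAX, hT, hK, hd, hKc, hH⟩
      -- descent to a child
      have child : ∀ (u : ℕ) (huv : u < v) (A₁ : Fin r → Finset (Pt q n)), (∀ a, A₁ a ⊆ A a) →
          (∀ a, (A a).card ≤ 2 * (A₁ a).card) →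
          (∀ x : Fin r → Pt q n, (∀ a, x a ∈ A₁ a) → ∑ a, T.f ⟨u, huv.trans hv⟩ a (x a) < 0) →
          False := by
        intro u huv A₁ hA₁ hAc hneg
        have hu : u < s := huv.trans hv
        have hXsub : ∀ a, A₁ a ⊆ gset N L Λ (F a) (u + 1) := fun a =>
          ((hA₁ a).trans (hAX a)).trans (gset_anti N L Λ (F a) (by omega))
        apply ih u huv hu
        refine descend (L := L) hN hn hL hM hg Hmono Hext hw (fun a => hlarge (F a) u hu.le)
          (A := A) (A₁ := A₁) (ρ := ρ) (K := K)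
          (fun a => ?_) (fun a => (hXsub a).trans (gset_succ_subset N L Λ (F a) u))
          (fun a x hx => ?_) hA₁ hAc hneg hK hd hKc hH
        · rw [← card_pos]
          have h1 := (hA a).card_pos
          have h2 := hAc a
          omega
        · have := (mem_sdiff.mp (hXsub a hx)).2
          rw [hFv a u hu] at this
          exact this
      rcases T.valid ⟨v, hv⟩ with ⟨P, hP, hleaf⟩ | ⟨u, u', hu, hu', huu⟩
      · -- leaf
        obtain ⟨ρ', hρ', hH'⟩ := Hext K (K ∪ P.biUnion V) ρ hH subset_union_left (by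
          have h1 := card_union_le K (P.biUnion V)
          have h2 : (P.biUnion V).card ≤ P.card * 5 := card_biUnion_le_card_mul _ _ _
            (fun j _ => hV j)
          omega)
        have hAF : ∀ a, (A a).card ≤ (2 * (4 * (q + 1)) ^ (3 * (r * lam) + 2)) * (A a).card :=
          fun a => Nat.le_mul_of_pos_left _ hFpos
        obtain ⟨x, hx, hxy⟩ := exists_tuple hg K A
          (fun a i hi b => dense_choice (hd a) (Subset.refl _) (hAF a) (hA a) hM i hi b) hA ρ'
        obtain ⟨j, hj, hjn⟩ := hleaf x (hT x hx)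
        apply hjn
        have hsub : V j ⊆ K ∪ P.biUnion V :=
          (subset_biUnion_of_mem V hj).trans subset_union_right
        refine hS j ρ' _ ?_ (Hsat _ _ j hH' hsub)
        intro a b hab i hi
        by_cases hiK : i ∈ K
        · rw [hK x hx a b hab i hiK, hρ' a b i hiK]
        · rw [hxy a b hab i hiK]
      · -- internal node
        obtain ⟨A₁, hA₁, hAc, hor⟩ := exists_halves_fam A hA (T.f u)
        rcases hor with hneg | hpos
        · exact child u.1 hu A₁ hA₁ hAc hneg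
        · refine child u'.1 hu' A₁ hA₁ hAc ?_
          intro x hx
          rcases huu x (hT x fun a => hA₁ a (hx a)) with h1 | h1
          · have := hpos x hx
            linarith
          · exact h1
  -- the root
  obtain ⟨⟨v, hv⟩, hroot⟩ := T.root
  apply key v hv
  obtain ⟨ρ, hρ⟩ := H0
  have hnqN : 0 < n ^ q := by
    have : 0 < n := by rw [hn]; positivity
    positivity
  have hlX : ∀ a, n ^ q ≤ 2 * (gset N L Λ (F a) (v + 1)).card := fun a => hlarge (F a) (v + 1) hv
  refine descend (L := L) hN hn hL hM hg Hmono Hext hw (fun a => hlarge (F a) v hv.le)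
    (A := fun a => gset N L Λ (F a) (v + 1))
    (A₁ := fun a => gset N L Λ (F a) (v + 1)) (ρ := ρ) (K := ∅)
    (fun a => ?_) (fun a => gset_succ_subset N L Λ (F a) v)
    (fun a x hx => ?_) (fun a => Subset.refl _) (fun a => ?_)
    (fun x _ => hroot x) (fun _ _ _ _ _ i hi => by simp at hi)
    (fun a => dense_empty hN hn _ (hlX a)) (by simp) hρ
  · rw [← card_pos]
    have := hlX a
    omega
  · have := (mem_sdiff.mp hx).2
    rw [hFv a v hv] at this
    exact this
  · exact Nat.le_mul_of_pos_left _ (by norm_num)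

end CliqueRP
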