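import Pool.Agent.Lib.MP_678664_lc_CP.GapEncode
import Pool.Agent.Lib.MP_678664_lc_RP.CoreR

/-!
# The main theorem: any gap
-/

open Finset Filter Topology

namespace CliqueRP

open CliqueGap

/-- A linear inequality as a line with respect to a partition of the positions. -/
noncomputable def toPart {k n B R : ℕ} (I : Ineq k B) (enc : Fin n → Fin B → Bool)
    (κ : Fin k → Fin R) (a₀ : Fin R) : PartLine k n R κ := by
  classical
  exact
  { f := fun a v => (∑ i ∈ univ.filter fun i => κ i = a,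
      ∑ l, if enc (v i) l = true then I.coef i l else 0) - (if a = a₀ then I.rhs else 0)
    dep := by
      intro a v w h
      congr 1
      apply sum_congr rfl
      intro i hi
      rw [h i (mem_filter.mp hi).2] }

theorem toPart_holds {k n B R : ℕ} (I : Ineq k B) (enc : Fin n → Fin B → Bool)
    (κ : Fin k → Fin R) (a₀ : Fin R) (v : Fin k → Fin n) :
    (toPart I enc κ a₀).Holds v ↔ I.Holds (fun i => enc (v i)) := by
  classical
  unfold PartLine.Holds Ineq.Holds toPart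
  simp only
  rw [sum_sub_distrib, sum_fiberwise univ κ
    (fun i => ∑ l, if enc (v i) l = true then I.coef i l else 0), sum_ite_eq' univ a₀]
  simp only [mem_univ, if_true]
  exact sub_nonneg

theorem toPartRefutation {n k t s B R : ℕ} {G : SimpleGraph (Fin n)}
    {enc : Fin n → Fin B → Bool}
    (Rf : Refutation G enc k t s) (κ : Fin k → Fin R) (a₀ : Fin R) :
    Nonempty (PartRefutation G κ t s) := by
  refine ⟨⟨fun m => toPart (Rf.line m) enc κ a₀, ?_, ?_⟩⟩
  · intro m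
    rcases Rf.valid m with ⟨Q, hQ, h⟩ | ⟨a, b, ha, hb, hab⟩
    · left
      refine ⟨Q, hQ, fun v hv => ?_⟩
      rw [toPart_holds]
      exact h _ ⟨v, fun i _ => rfl, hv⟩
    · right
      refine ⟨a, b, ha, hb, fun v => ?_⟩
      simp only [toPart_holds]
      exact hab _
  · obtain ⟨m, hm⟩ := Rf.contra
    refine ⟨m, fun v => ?_⟩
    rw [toPart_holds]
    exact hm _

/-- The main theorem for a fixed number of parts. -/
theorem main_parts (R : ℕ) (hR : 2 ≤ R) (ε : ℝ) (hε : 0 < ε) :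
    ∃ c : ℝ, 0 < c ∧ ∃ C k₀ : ℕ, ∀ k ≥ k₀, ∀ n : ℕ, k ^ (C * k) ≤ n →
      ∃ G : SimpleGraph (Fin n), (∀ m : ℕ, (1 / R + ε) * k ≤ m → G.CliqueFree m) ∧
        (∀ s : ℕ, Nonempty (ResRefutation G k s) → (n : ℝ) ^ (c * k) ≤ s) ∧
        (∀ (B : ℕ) (enc : Fin n → Fin B → Bool) (t s : ℕ), (t : ℝ) ≤ c * k →
          Nonempty (Refutation G enc k t s) → (n : ℝ) ^ (c * k) ≤ s) ∧
        (∃ κ : Fin k → Fin R, (∀ a, k / R ≤ (univ.filter fun i => κ i = a).card ∧
          (univ.filter fun i => κ i = a).card ≤ k / R + 1) ∧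
          ∀ t s : ℕ, (t : ℝ) ≤ c * k → Nonempty (PartRefutation G κ t s) →
            (n : ℝ) ^ (c * k) ≤ s) := by
  have hR0 : (0 : ℝ) < R := by exact_mod_cast (by omega : 0 < R)
  obtain ⟨E, hE⟩ := exists_nat_ge (2 / ε)
  have hE0 : (0 : ℝ) < E := (by positivity : (0 : ℝ) < 2 / ε).trans_le hE
  have hEpos : 0 < E := by exact_mod_cast hE0
  obtain ⟨c, hc, C, k₀, h⟩ := part_core R E hR hEpos
  obtain ⟨k₁, hk₁⟩ := exists_nat_ge (2 / c)
  obtain ⟨k₂, hk₂⟩ := exists_nat_ge (4 * R / ε)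
  refine ⟨c, hc, C, max (max k₀ k₁) k₂, fun k hk n hn => ?_⟩
  have hk0 : k₀ ≤ k := (le_max_left _ _).trans ((le_max_left _ _).trans hk)
  have hk1 : k₁ ≤ k := (le_max_right _ _).trans ((le_max_left _ _).trans hk)
  have hk2 : k₂ ≤ k := (le_max_right _ _).trans hk
  obtain ⟨G, hG, κ, hκ, hb⟩ := h k hk0 n hn
  have hck : (2 : ℝ) ≤ c * k := by
    have h1 : (k₁ : ℝ) ≤ k := by exact_mod_cast hk1
    have h2 : 2 / c ≤ k := hk₁.trans h1
    rw [div_le_iff₀ hc] at h2
    linarith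
  have hcp : ∀ (B : ℕ) (enc : Fin n → Fin B → Bool) (t s : ℕ), (t : ℝ) ≤ c * k →
      Nonempty (Refutation G enc k t s) → (n : ℝ) ^ (c * k) ≤ s := by
    rintro B enc t s ht ⟨Rf⟩
    exact hb t s ht (toPartRefutation Rf κ ⟨0, by omega⟩)
  refine ⟨G, fun m hm => hG m ?_, ?_, hcp, κ, hκ, hb⟩
  · have hk' : (0 : ℝ) ≤ k := by positivity
    have h1 : ((k / R : ℕ) : ℝ) ≤ k / R := Nat.cast_div_le
    have h2 : ((k / R / E : ℕ) : ℝ) ≤ ((k / R : ℕ) : ℝ) / E := Nat.cast_div_le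
    have h3 : 4 * (R : ℝ) ≤ ε * k := by
      have h4 : (k₂ : ℝ) ≤ k := by exact_mod_cast hk2
      have h5 : 4 * R / ε ≤ k := hk₂.trans h4
      rw [div_le_iff₀ hε] at h5
      linarith
    have h6 : ((k / R / E : ℕ) : ℝ) * R ≤ ε * k / 2 := by
      have h7 : ((k / R / E : ℕ) : ℝ) ≤ k / R / E := h2.trans (by gcongr)
      have h8 : 1 / (E : ℝ) ≤ ε / 2 := by
        rw [div_le_iff₀ hE0]
        rw [div_le_iff₀ hε] at hE
        nlinarith
      calc ((k / R / E : ℕ) : ℝ) * R ≤ k / R / E * R := by gcongr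
        _ = k * (1 / E) := by field_simp
        _ ≤ k * (ε / 2) := by gcongr
        _ = ε * k / 2 := by ring
    have h9 : ((R - 1 : ℕ) : ℝ) ≤ R := by exact_mod_cast Nat.sub_le R 1
    have h10 : ((R - 1 : ℕ) : ℝ) * ((k / R / E : ℕ) + 1) ≤ R * ((k / R / E : ℕ) + 1) := by
      gcongr
    have h11 : ((k / R + (R - 1) * (k / R / E + 1) + R : ℕ) : ℝ) ≤ m := by
      push_cast
      have h12 : (1 / (R : ℝ) + ε) * k = k / R + ε * k := by ring
      rw [h12] at hm
      nlinarith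
    exact_mod_cast h11
  · rintro s ⟨Rf⟩
    exact hcp n (unary n) 2 s (by exact_mod_cast hck) Rf.toRefutation

end CliqueRP
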