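import Pool.Agent.Lib.MP_678664_lc_CP.Walk

/-! # The protocol with several parties: one round -/

set_option autoImplicit false

open Finset CliqueCP

namespace CliqueRP

/-- The sign of a sum of several families of numbers is constant on halves. -/
theorem exists_halves_fam {r : ℕ} {α : Type*} (P : Fin r → Finset α) (hP : ∀ a, (P a).Nonempty)
    (F : Fin r → α → ℝ) :
    ∃ P' : Fin r → Finset α, (∀ a, P' a ⊆ P a) ∧ (∀ a, (P a).card ≤ 2 * (P' a).card) ∧
      ((∀ x : Fin r → α, (∀ a, x a ∈ P' a) → ∑ a, F a (x a) < 0) ∨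
        ∀ x : Fin r → α, (∀ a, x a ∈ P' a) → 0 ≤ ∑ a, F a (x a)) := by
  classical
  choose m hm1 hm2 using fun a => exists_quantile (P a) (hP a) (F a) 2 (by norm_num)
  by_cases h : ∑ a, m a < 0
  · refine ⟨fun a => (P a).filter fun x => F a x ≤ m a, fun a => filter_subset _ _, hm1,
      Or.inl fun x hx => ?_⟩
    refine lt_of_le_of_lt (sum_le_sum fun a _ => ?_) h
    exact (mem_filter.mp (hx a)).2
  · push Not at h
    refine ⟨fun a => (P a).filter fun x => ¬ F a x < m a, fun a => filter_subset _ _,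
      fun a => ?_, Or.inr fun x hx => ?_⟩
    · have e1 : ((P a).filter fun x => F a x < m a).card +
          ((P a).filter fun x => ¬ F a x < m a).card = (P a).card :=
        card_filter_add_card_filter_not _
      have h2 := hm2 a
      show (P a).card ≤ 2 * ((P a).filter fun x => ¬ F a x < m a).card
      omega
    · refine h.trans (sum_le_sum fun a _ => ?_)
      exact not_lt.mp (mem_filter.mp (hx a)).2

/-- A configuration of the protocol at a node. -/
structure Cfg {q n r : ℕ} (N : ℕ) (f : Fin r → Pt q n → ℝ) (X : Fin r → Finset (Pt q n))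
    (l : Fin r → List (Step q)) (A : Fin r → Finset (Pt q n)) (K : Finset (Fin q)) : Prop where
  ne : ∀ a, (A a).Nonempty
  ev : ∀ a, ∀ x ∈ A a, ∃ S c, CliqueCP.ev N (f a) (l a) ∅ (X a) x = some (S, c)
  ks : ∀ a, kset ∅ (l a) = K
  kc : ∀ a, K.card = pc (l a) + fc (l a)
  kp : K.card = ∑ a, pc (l a)

/-- The progress measure. -/
def prog {q r : ℕ} (l : Fin r → List (Step q)) : ℕ := ∑ a, pc (l a) + ∑ a, lc (l a)

/-- A final configuration. -/
structure Fnl {q n r : ℕ} (N : ℕ) (f : Fin r → Pt q n → ℝ) (X : Fin r → Finset (Pt q n))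
    (l : Fin r → List (Step q)) (A : Fin r → Finset (Pt q n)) (K : Finset (Fin q)) : Prop where
  cfg : Cfg N f X l A K
  d : ∀ a, ∀ x ∈ A a, Dense (N ^ 2) K (evS N (f a) (l a) (X a) x)
  lt : ∀ x : Fin r → Pt q n, (∀ a, x a ∈ A a) →
    ∑ a, quant N (evS N (f a) (l a) (X a) (x a)) (f a) < 0

theorem sum_ite_add_one {r : ℕ} (a₀ : Fin r) (u v : Fin r → ℕ) (h0 : u a₀ = v a₀ + 1)
    (h : ∀ a, a ≠ a₀ → u a = v a) : ∑ a, u a = ∑ a, v a + 1 := by
  classical
  rw [← add_sum_erase _ _ (mem_univ a₀), ← add_sum_erase _ v (mem_univ a₀), h0,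
    sum_congr rfl fun a ha => h a (ne_of_mem_erase ha)]
  ring

theorem round {q n r : ℕ} {N : ℕ} (hN : 1 ≤ N) {f : Fin r → Pt q n → ℝ}
    {X : Fin r → Finset (Pt q n)} {l : Fin r → List (Step q)} {A : Fin r → Finset (Pt q n)}
    {K : Finset (Fin q)} (hc : Cfg N f X l A K) (hAX : ∀ a, A a ⊆ X a)
    (hT : ∀ x : Fin r → Pt q n, (∀ a, x a ∈ A a) → ∑ a, f a (x a) < 0) :
    (∃ l' A', (∀ a, A' a ⊆ A a) ∧ Fnl N f X l' A' K ∧ prog l' = prog l ∧
      (∀ a, (l' a).length ≤ (l a).length + 1) ∧
      ∀ a, (A a).card ≤ (4 * (q + 1)) * (A' a).card) ∨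
    (∃ l' A' K', (∀ a, A' a ⊆ A a) ∧ Cfg N f X l' A' K' ∧ prog l' = prog l + 1 ∧
      (∀ a, (l' a).length ≤ (l a).length + 2) ∧
      ∀ a, (A a).card ≤ (4 * (q + 1)) * (A' a).card) := by
  classical
  choose o A' hA'A hA'ne hA'c ho using fun a => popular_peel N (f a) (l a) (X a) (A a) (hc.ne a)
  by_cases hall : ∀ a, o a = none
  · -- nobody peels
    obtain ⟨l1, hl1⟩ : ∃ l1 : Fin r → List (Step q), ∀ a, l1 a = l a ++ [Step.peel none] :=
      ⟨_, fun a => rfl⟩
    have hev : ∀ a, ∀ x ∈ A' a, ∃ S c, CliqueCP.ev N (f a) (l1 a) ∅ (X a) x = some (S, c) := by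
      intro a x hx
      obtain ⟨c, h1⟩ := ev_peel (hc.ev a x (hA'A a hx)) ((ho a x hx).trans (hall a))
      rw [hl1]
      exact ⟨_, c, h1⟩
    have hk : ∀ a, kset ∅ (l1 a) = K := by
      intro a
      rw [hl1, kset_single, hc.ks a]
      rfl
    have hp : ∀ a, pc (l1 a) = pc (l a) := by intro a; rw [hl1, pc_single]; rfl
    have hf : ∀ a, fc (l1 a) = fc (l a) := by intro a; rw [hl1, fc_single]; rfl
    have hlc : ∀ a, lc (l1 a) = lc (l a) := by intro a; rw [hl1, lc_single]; rfl
    have hd : ∀ a, ∀ x ∈ A' a, Dense (N ^ 2) K (evS N (f a) (l1 a) (X a) x) := by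
      intro a x hx
      obtain ⟨c, h1⟩ := ev_peel (hc.ev a x (hA'A a hx)) ((ho a x hx).trans (hall a))
      rw [hl1, evS_eq h1, ← hc.ks a]
      exact (peelF_none (mem_evS hN (hAX a (hA'A a hx)) (hc.ev a x (hA'A a hx)))
        ((ho a x hx).trans (hall a))).1
    obtain ⟨A2, hA2, hA2c, hor⟩ := exists_halves_fam A' hA'ne
      (fun a x => quant N (evS N (f a) (l1 a) (X a) x) (f a))
    have hA2ne : ∀ a, (A2 a).Nonempty := by
      intro a
      rw [← card_pos]
      have h1 := (hA'ne a).card_pos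
      have h2 := hA2c a
      omega
    have hcard : ∀ a, (A a).card ≤ (4 * (q + 1)) * (A2 a).card := by
      intro a
      calc (A a).card ≤ (q + 1) * (A' a).card := hA'c a
        _ ≤ (q + 1) * (2 * (A2 a).card) := Nat.mul_le_mul_left _ (hA2c a)
        _ ≤ _ := by nlinarith
    have hcfg : Cfg N f X l1 A2 K := by
      refine ⟨hA2ne, fun a x hx => hev a x (hA2 a hx), hk, fun a => ?_, ?_⟩
      · rw [hp, hf]
        exact hc.kc a
      · rw [hc.kp]
        exact sum_congr rfl fun a _ => (hp a).symm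
    have hprog : prog l1 = prog l := by
      unfold prog
      rw [sum_congr rfl fun a _ => hp a, sum_congr rfl fun a _ => hlc a]
    rcases hor with hneg | hpos
    · left
      refine ⟨l1, A2, fun a => (hA2 a).trans (hA'A a), ⟨hcfg, fun a x hx => hd a x (hA2 a hx),
        hneg⟩, hprog, fun a => ?_, hcard⟩
      rw [hl1]
      simp
    · right
      -- some party is low
      obtain ⟨a₀, ha₀⟩ : ∃ a₀, ∀ x ∈ A2 a₀, x ∈ lowS N (f a₀) (evS N (f a₀) (l1 a₀) (X a₀) x) := by
        by_contra hcon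
        push Not at hcon
        choose x hx hxl using hcon
        have h1 := hpos x hx
        have h2 := hT x fun a => hA'A a (hA2 a (hx a))
        have h3 : ∑ a, quant N (evS N (f a) (l1 a) (X a) (x a)) (f a) ≤ ∑ a, f a (x a) := by
          refine sum_le_sum fun a _ => ?_
          by_contra h4
          push Not at h4
          apply hxl a
          exact mem_filter.mpr ⟨mem_evS hN (hAX a (hA'A a (hA2 a (hx a))))
            (hev a _ (hA2 a (hx a))), h4⟩
        linarith
      refine ⟨fun a => if a = a₀ then l1 a ++ [Step.low] else l1 a, A2, K,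
        fun a => (hA2 a).trans (hA'A a), ⟨hA2ne, fun a x hx => ?_, fun a => ?_, fun a => ?_, ?_⟩,
        ?_, fun a => ?_, hcard⟩
      · by_cases h : a = a₀
        · subst h
          rw [if_pos rfl]
          exact ev_low (hev a x (hA2 a hx)) (ha₀ x hx)
        · rw [if_neg h]
          exact hev a x (hA2 a hx)
      · by_cases h : a = a₀
        · rw [if_pos h, kset_single, hk]
          rfl
        · rw [if_neg h, hk]
      · by_cases h : a = a₀
        · rw [if_pos h, pc_single, fc_single, hp, hf]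
          exact hc.kc a
        · rw [if_neg h, hp, hf]
          exact hc.kc a
      · rw [hcfg.kp]
        refine sum_congr rfl fun a _ => ?_
        by_cases h : a = a₀
        · rw [if_pos h, pc_single]
          rfl
        · rw [if_neg h]
      · rw [← hprog]
        unfold prog
        have e1 : ∑ a, pc (if a = a₀ then l1 a ++ [Step.low] else l1 a) = ∑ a, pc (l1 a) := by
          refine sum_congr rfl fun a _ => ?_
          by_cases h : a = a₀
          · rw [if_pos h, pc_single]
            rfl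
          · rw [if_neg h]
        have e2 : ∑ a, lc (if a = a₀ then l1 a ++ [Step.low] else l1 a) =
            ∑ a, lc (l1 a) + 1 := by
          refine sum_ite_add_one a₀ _ _ ?_ fun a h => ?_
          · rw [if_pos rfl, lc_single]
            rfl
          · rw [if_neg h]
        rw [e1, e2]
        ring
      · beta_reduce
        by_cases h : a = a₀
        · rw [if_pos h, hl1]
          simp
        · rw [if_neg h, hl1]
          simp
  · -- the party `a₀` peels `i`
    right
    push Not at hall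
    obtain ⟨a₀, ha₀⟩ := hall
    obtain ⟨i, hi⟩ := Option.ne_none_iff_exists'.mp ha₀
    obtain ⟨x₀, hx₀⟩ := hA'ne a₀
    have hiK : i ∉ K := by
      rw [← hc.ks a₀]
      exact (peelF_some (mem_evS hN (hAX a₀ (hA'A a₀ hx₀)) (hc.ev a₀ x₀ (hA'A a₀ hx₀)))
        ((ho a₀ x₀ hx₀).trans hi)).1
    have hKc : (insert i K).card = K.card + 1 := card_insert_of_notMem hiK
    refine ⟨fun a => if a = a₀ then l a ++ [Step.peel (some i)] else l a ++ [Step.fix i],
      fun a => if a = a₀ then A' a else A a, insert i K, fun a => ?_,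
      ⟨fun a => ?_, fun a x hx => ?_, fun a => ?_, fun a => ?_, ?_⟩, ?_, fun a => ?_, fun a => ?_⟩
    · beta_reduce
      by_cases h : a = a₀
      · rw [if_pos h]
        exact hA'A a
      · rw [if_neg h]
    · by_cases h : a = a₀
      · rw [if_pos h]
        exact hA'ne a
      · rw [if_neg h]
        exact hc.ne a
    · by_cases h : a = a₀
      · rw [if_pos h] at hx ⊢
        subst h
        obtain ⟨c, h1⟩ := ev_peel (hc.ev a x (hA'A a hx)) ((ho a x hx).trans hi)
        exact ⟨_, c, h1⟩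
      · rw [if_neg h] at hx ⊢
        exact ev_fix (hc.ev a x hx) i
    · by_cases h : a = a₀
      · rw [if_pos h, kset_single, hc.ks]
        rfl
      · rw [if_neg h, kset_single, hc.ks]
        rfl
    · by_cases h : a = a₀
      · rw [if_pos h, pc_single, fc_single, hKc, hc.kc a]
        simp only [Step.pcn, Step.fcn]
        ring
      · rw [if_neg h, pc_single, fc_single, hKc, hc.kc a]
        simp only [Step.pcn, Step.fcn]
        ring
    · rw [hKc, hc.kp]
      symm
      refine sum_ite_add_one a₀ _ _ ?_ fun a h => ?_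
      · rw [if_pos rfl, pc_single]
        rfl
      · rw [if_neg h, pc_single]
        rfl
    · unfold prog
      have e1 : ∑ a, pc (if a = a₀ then l a ++ [Step.peel (some i)] else l a ++ [Step.fix i]) =
          ∑ a, pc (l a) + 1 := by
        refine sum_ite_add_one a₀ _ _ ?_ fun a h => ?_
        · rw [if_pos rfl, pc_single]
          rfl
        · rw [if_neg h, pc_single]
          rfl
      have e2 : ∑ a, lc (if a = a₀ then l a ++ [Step.peel (some i)] else l a ++ [Step.fix i]) =
          ∑ a, lc (l a) := by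
        refine sum_congr rfl fun a _ => ?_
        by_cases h : a = a₀
        · rw [if_pos h, lc_single]
          rfl
        · rw [if_neg h, lc_single]
          rfl
      rw [e1, e2]
      ring
    · beta_reduce
      by_cases h : a = a₀
      · rw [if_pos h]
        simp
      · rw [if_neg h]
        simp
    · beta_reduce
      by_cases h : a = a₀
      · rw [if_pos h]
        have := hA'c a
        nlinarith
      · rw [if_neg h]
        exact Nat.le_mul_of_pos_left _ (by omega)

/-- Iterating rounds. -/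
theorem iterate {q n r : ℕ} {N : ℕ} (hN : 1 ≤ N) {f : Fin r → Pt q n → ℝ}
    {X : Fin r → Finset (Pt q n)} {A : Fin r → Finset (Pt q n)} (hA : ∀ a, (A a).Nonempty)
    (hAX : ∀ a, A a ⊆ X a)
    (hT : ∀ x : Fin r → Pt q n, (∀ a, x a ∈ A a) → ∑ a, f a (x a) < 0) (k : ℕ) :
    (∃ l A' K, (∀ a, A' a ⊆ A a) ∧ Fnl N f X l A' K ∧ (∀ a, (l a).length ≤ 2 * k + 1) ∧
      ∀ a, (A a).card ≤ (4 * (q + 1)) ^ (k + 1) * (A' a).card) ∨
    (∃ l A' K, (∀ a, A' a ⊆ A a) ∧ Cfg N f X l A' K ∧ prog l = k ∧
      (∀ a, (l a).length ≤ 2 * k) ∧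
      ∀ a, (A a).card ≤ (4 * (q + 1)) ^ k * (A' a).card) := by
  induction k with
  | zero =>
    right
    refine ⟨fun _ => [], A, ∅, fun a => Subset.refl _, ⟨hA, fun a x _ => ⟨X a, 1, rfl⟩,
      fun a => rfl, fun a => ?_, ?_⟩, ?_, fun a => ?_, fun a => ?_⟩
    · simp [pc, fc]
    · simp [pc]
    · simp [prog, pc, lc]
    · simp
    · simp
  | succ k ih =>
    have hC : 1 ≤ 4 * (q + 1) := by omega
    rcases ih with ⟨l, A', K, hA', hF, h1, h3⟩ | ⟨l, A', K, hA', hc, hr, h1, h3⟩
    · left
      refine ⟨l, A', K, hA', hF, fun a => (h1 a).trans (by omega), fun a => ?_⟩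
      refine (h3 a).trans (Nat.mul_le_mul_right _ ?_)
      exact Nat.pow_le_pow_right hC (by omega)
    · have hmul : ∀ {a b c : ℕ}, a ≤ (4 * (q + 1)) ^ k * b → b ≤ (4 * (q + 1)) * c →
          a ≤ (4 * (q + 1)) ^ (k + 1) * c := by
        intro a b c hab hbc
        calc a ≤ (4 * (q + 1)) ^ k * b := hab
          _ ≤ (4 * (q + 1)) ^ k * ((4 * (q + 1)) * c) := Nat.mul_le_mul_left _ hbc
          _ = _ := by rw [pow_succ]; ring
      rcases round hN hc (fun a => (hA' a).trans (hAX a))
        (fun x hx => hT x fun a => hA' a (hx a)) with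
        ⟨l', A2, hA2, hF, hp, g1, g3⟩ | ⟨l', A2, K', hA2, hc', hp, g1, g3⟩
      · left
        refine ⟨l', A2, K, fun a => (hA2 a).trans (hA' a), hF, fun a => ?_, fun a => ?_⟩
        · have h4 := g1 a
          have h5 := h1 a
          omega
        · refine (hmul (h3 a) (g3 a)).trans (Nat.mul_le_mul_right _ ?_)
          exact Nat.pow_le_pow_right hC (by omega)
      · right
        refine ⟨l', A2, K', fun a => (hA2 a).trans (hA' a), hc', by omega, fun a => ?_,
          fun a => hmul (h3 a) (g3 a)⟩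
        have h4 := g1 a
        have h5 := h1 a
        omega

/-- Non-error points reach a final configuration with few fixed coordinates. -/
theorem reach {q n r N lam L : ℕ} (hN : 2 ≤ N) (hn : n = N ^ 4) (hL : 6 * (r * lam) + 3 ≤ L)
    {f : Fin r → Pt q n → ℝ} {X : Fin r → Finset (Pt q n)} (hX : ∀ a, n ^ q ≤ 2 * (X a).card)
    {A : Fin r → Finset (Pt q n)} (hA : ∀ a, (A a).Nonempty) (hAX : ∀ a, A a ⊆ X a)
    (hAe : ∀ a, ∀ x ∈ A a, x ∉ errSet N L ((N : ℝ) ^ lam) (f a) (X a))
    (hT : ∀ x : Fin r → Pt q n, (∀ a, x a ∈ A a) → ∑ a, f a (x a) < 0) :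
    ∃ l A' K, (∀ a, A' a ⊆ A a) ∧ Fnl N f X l A' K ∧ K.card ≤ r * lam ∧
      ∀ a, (A a).card ≤ (4 * (q + 1)) ^ (3 * (r * lam) + 2) * (A' a).card := by
  have hbound : ∀ l (A' : Fin r → Finset (Pt q n)) K, (∀ a, A' a ⊆ A a) →
      Cfg N f X l A' K → (∀ a, (l a).length ≤ L) →
      ∀ a, pc (l a) ≤ lam ∧ lc (l a) < 2 * lam := by
    intro l A' K hA' hc hl a
    obtain ⟨x, hx⟩ := hc.ne a
    obtain ⟨S, c, hS⟩ := hc.ev a x hx
    exact row_bound hN hn (hX a) (hAX a (hA' a hx)) (hAe a x (hA' a hx)) (hl a) hS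
      (by rw [hc.ks a]; exact hc.kc a)
  rcases iterate (N := N) (by omega) hA hAX hT (3 * (r * lam) + 1) with
    ⟨l, A', K, hA', hF, h1, h3⟩ | ⟨l, A', K, hA', hc, hr, h1, h3⟩
  · have hb := hbound l A' K hA' hF.cfg fun a => (h1 a).trans (by omega)
    refine ⟨l, A', K, hA', hF, ?_, h3⟩
    rw [hF.cfg.kp]
    calc ∑ a, pc (l a) ≤ ∑ _a : Fin r, lam := sum_le_sum fun a _ => (hb a).1
      _ = r * lam := by simp
  · exfalso
    have hb := hbound l A' K hA' hc fun a => (h1 a).trans (by omega)
    have e1 : ∑ a, pc (l a) ≤ r * lam := by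
      calc ∑ a, pc (l a) ≤ ∑ _a : Fin r, lam := sum_le_sum fun a _ => (hb a).1
        _ = r * lam := by simp
    have e2 : ∑ a, lc (l a) ≤ r * (2 * lam) := by
      calc ∑ a, lc (l a) ≤ ∑ _a : Fin r, 2 * lam := sum_le_sum fun a _ => (hb a).2.le
        _ = r * (2 * lam) := by simp
    unfold prog at hr
    have e3 : r * (2 * lam) = 2 * (r * lam) := by ring
    omega

end CliqueRP
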