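import Pool.Agent.Lib.MP_678664_lc_RP.Defs
import Pool.Agent.Lib.MP_678664_lc_RP.Round

/-! # Several parties: the descent through the dag -/

set_option autoImplicit false

open Finset CliqueCP

namespace CliqueRP

/-- In sets without popular coordinates outside `K` there are points with any prescribed gadget
values outside `K`. -/
theorem exists_tuple {q n M r : ℕ} {g : Fin r → Fin r → Fin q → Fin n → Fin n → Bool}
    (hg : GadgetGood g M) (K : Finset (Fin q)) (A : Fin r → Finset (Pt q n))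
    (hA : ∀ a, ∀ i, i ∉ K → ∀ b, M * q * (slice (A a) i b).card < (A a).card)
    (hA0 : ∀ a, (A a).Nonempty) (ρ : Fin r → Fin r → Fin q → Bool) :
    ∃ x : Fin r → Pt q n, (∀ a, x a ∈ A a) ∧
      ∀ a b, a < b → ∀ i, i ∉ K → gval g x a b i = ρ a b i := by
  classical
  choose x hx hxi using fun a => exists_family K (A a) (hA a) (hA0 a) M le_rfl
  obtain ⟨c, hc⟩ := hg Kᶜ x ρ (fun a i hi => hxi a i (mem_compl.mp hi))
  exact ⟨fun a => x a (c a), fun a => hx a _,
    fun a b hab i hi => hc a b hab i (mem_compl.mpr hi)⟩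

/-- The invariant of the descent. -/
def State {q n r : ℕ} (N lam : ℕ) (g : Fin r → Fin r → Fin q → Fin n → Fin n → Bool)
    (H : Finset (Fin q) → (Fin r → Fin r → Fin q → Bool) → Prop) (f : Fin r → Pt q n → ℝ)
    (X : Fin r → Finset (Pt q n)) : Prop :=
  ∃ (K : Finset (Fin q)) (A : Fin r → Finset (Pt q n)) (ρ : Fin r → Fin r → Fin q → Bool),
    (∀ a, (A a).Nonempty) ∧ (∀ a, A a ⊆ X a) ∧
    (∀ x : Fin r → Pt q n, (∀ a, x a ∈ A a) → ∑ a, f a (x a) < 0) ∧
    (∀ x : Fin r → Pt q n, (∀ a, x a ∈ A a) → ∀ a b, a < b → ∀ i ∈ K,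
      gval g x a b i = ρ a b i) ∧
    (∀ a, Dense N K (A a)) ∧ K.card ≤ r * lam ∧ H K ρ

theorem dense_filter {q n N : ℕ} (hN : 1 ≤ N) {K : Finset (Fin q)} (Z : Finset (Pt q n))
    (k : Pt q n → ℝ) (hZ : Z.card ≤ N * (Z.filter fun x => k x ≤ quant N Z k).card)
    (hdZ : Dense (N ^ 2) K Z) : Dense N K (Z.filter fun x => k x ≤ quant N Z k) := by
  intro i hi b
  have h1 := hdZ i hi b
  have h2 : (slice (Z.filter fun x => k x ≤ quant N Z k) i b).card ≤ (slice Z i b).card :=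
    card_le_card (slice_mono (filter_subset _ _) i b)
  have h3 : N * (N * (slice (Z.filter fun x => k x ≤ quant N Z k) i b).card) ≤
      N * (Z.filter fun x => k x ≤ quant N Z k).card := by
    calc N * (N * (slice (Z.filter fun x => k x ≤ quant N Z k) i b).card)
        ≤ N * (N * (slice Z i b).card) := by gcongr
      _ = N ^ 2 * (slice Z i b).card := by ring
      _ ≤ Z.card := h1
      _ ≤ _ := hZ
  exact Nat.le_of_mul_le_mul_left h3 (by omega)

/-- One descent step: from a box inside the set of the node `f` with good invariants to a state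
of this node. -/
theorem descend {q n N lam L M r : ℕ} (hN : 2 ≤ N) (hn : n = N ^ 4)
    (hL : 6 * (r * lam) + 3 ≤ L)
    (hM : M * q * (2 * (4 * (q + 1)) ^ (3 * (r * lam) + 2)) < N)
    {g : Fin r → Fin r → Fin q → Fin n → Fin n → Bool} (hg : GadgetGood g M)
    {H : Finset (Fin q) → (Fin r → Fin r → Fin q → Bool) → Prop} {w : ℕ}
    (Hmono : ∀ K K' ρ, H K ρ → K' ⊆ K → H K' ρ)
    (Hext : ∀ K K' ρ, H K ρ → K ⊆ K' → K'.card ≤ w →
      ∃ ρ' : Fin r → Fin r → Fin q → Bool,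
        (∀ a b, ∀ i ∈ K, ρ' a b i = ρ a b i) ∧ H K' ρ')
    (hw : 2 * (r * lam) ≤ w)
    {f : Fin r → Pt q n → ℝ} {X : Fin r → Finset (Pt q n)} (hX : ∀ a, n ^ q ≤ 2 * (X a).card)
    {K : Finset (Fin q)} {A A₁ : Fin r → Finset (Pt q n)}
    {ρ : Fin r → Fin r → Fin q → Bool} (hA : ∀ a, (A₁ a).Nonempty)
    (hAX : ∀ a, A₁ a ⊆ X a)
    (hAe : ∀ a, ∀ x ∈ A₁ a, x ∉ errSet N L ((N : ℝ) ^ lam) (f a) (X a))
    (hA₁ : ∀ a, A₁ a ⊆ A a) (hA₁c : ∀ a, (A a).card ≤ 2 * (A₁ a).card)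
    (hT : ∀ x : Fin r → Pt q n, (∀ a, x a ∈ A₁ a) → ∑ a, f a (x a) < 0)
    (hK : ∀ x : Fin r → Pt q n, (∀ a, x a ∈ A a) → ∀ a b, a < b → ∀ i ∈ K,
      gval g x a b i = ρ a b i)
    (hd : ∀ a, Dense N K (A a)) (hKc : K.card ≤ r * lam) (hH : H K ρ) :
    State N lam g H f X := by
  classical
  obtain ⟨l, A', K', hA', hF, hkc, hA'c⟩ := reach hN hn hL hX hA hAX hAe hT
  obtain ⟨ρ', hρ', hH'⟩ := Hext K (K ∪ K') ρ hH subset_union_left
    (by have := card_union_le K K'; omega)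
  have hcA : ∀ a, (A a).card ≤ (2 * (4 * (q + 1)) ^ (3 * (r * lam) + 2)) * (A' a).card := by
    intro a
    calc (A a).card ≤ 2 * (A₁ a).card := hA₁c a
      _ ≤ 2 * ((4 * (q + 1)) ^ (3 * (r * lam) + 2) * (A' a).card) :=
          Nat.mul_le_mul_left _ (hA'c a)
      _ = _ := by ring
  obtain ⟨x, hx, hxy⟩ := exists_tuple hg K A'
    (fun a i hi b => dense_choice (hd a) ((hA' a).trans (hA₁ a)) (hcA a) (hF.cfg.ne a) hM i hi b)
    hF.cfg.ne ρ'
  -- the values on the new coordinates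
  have hval : ∀ a b, a < b → ∀ i ∈ K', gval g x a b i = ρ' a b i := by
    intro a b hab i hi
    by_cases hiK : i ∈ K
    · rw [hρ' a b i hiK]
      exact hK x (fun a => hA₁ a (hA' a (hx a))) a b hab i hiK
    · exact hxy a b hab i hiK
  have hN1 : 1 ≤ N := by omega
  have hS : ∀ a, x a ∈ evS N (f a) (l a) (X a) (x a) ∧ evS N (f a) (l a) (X a) (x a) ⊆ X a ∧
      ∀ x' ∈ evS N (f a) (l a) (X a) (x a), ∀ i ∈ K', x' i = x a i := by
    intro a
    obtain ⟨c, hev⟩ := ev_evS (hF.cfg.ev a (x a) (hx a))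
    obtain ⟨s1, s2, -, -, -, s6⟩ := ev_spec (by omega) (hAX a (hA' a (hx a))) hev
    refine ⟨s1, s2, fun x' hx' i hi => ?_⟩
    rcases s6 x' hx' i (by rw [hF.cfg.ks a]; exact hi) with h | h
    · simp at h
    · exact h
  have hq : ∀ a, (evS N (f a) (l a) (X a) (x a)).card ≤ N *
      ((evS N (f a) (l a) (X a) (x a)).filter fun y =>
        f a y ≤ quant N (evS N (f a) (l a) (X a) (x a)) (f a)).card :=
    fun a => quant_le ⟨x a, (hS a).1⟩ hN1 (f a)
  refine ⟨K', fun a => (evS N (f a) (l a) (X a) (x a)).filter fun y =>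
      f a y ≤ quant N (evS N (f a) (l a) (X a) (x a)) (f a), ρ', fun a => ?_,
    fun a => (filter_subset _ _).trans (hS a).2.1, fun x' hx' => ?_, fun x' hx' a b hab i hi => ?_,
    fun a => dense_filter hN1 _ _ (hq a) (hF.d a (x a) (hx a)), hkc,
    Hmono _ _ _ hH' subset_union_right⟩
  · rw [← card_pos]
    by_contra h0
    have h1 : ((evS N (f a) (l a) (X a) (x a)).filter fun y =>
        f a y ≤ quant N (evS N (f a) (l a) (X a) (x a)) (f a)).card = 0 :=
      Nat.eq_zero_of_not_pos h0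
    have h2 := hq a
    rw [h1, mul_zero] at h2
    have h3 : 0 < (evS N (f a) (l a) (X a) (x a)).card := card_pos.mpr ⟨x a, (hS a).1⟩
    omega
  · have h1 : ∑ a, f a (x' a) ≤ ∑ a, quant N (evS N (f a) (l a) (X a) (x a)) (f a) :=
      sum_le_sum fun a _ => (mem_filter.mp (hx' a)).2
    exact lt_of_le_of_lt h1 (hF.lt x hx)
  · have h1 := (hS a).2.2 (x' a) (mem_filter.mp (hx' a)).1 i hi
    have h2 := (hS b).2.2 (x' b) (mem_filter.mp (hx' b)).1 i hi
    rw [← hval a b hab i hi]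
    unfold gval
    rw [h1, h2]

end CliqueRP
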